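import Mathlib
import Pool.Agent.KS6_3.HT0.H807R3.Trans3

set_option autoImplicit false
open MeasureTheory Metric Set Filter Topology Complex
open scoped ContDiff ENNReal ComplexConjugate Interval

namespace Pool.Agent.KS6_3.HT

open Pool.Agent.H807R3

/-- smoothness of integrals over `[0, 1]` depending on a parameter -/
theorem smooth_param {g : E × ℝ → ℂ} (hg0 : ContDiff ℝ ∞ g) :
    ContDiff ℝ ∞ (fun p : E => ∫ t in (0:ℝ)..1, g (p, t)) := by
  let ρ : ContDiffBump (0:ℝ) := ⟨1, 2, by norm_num, by norm_num⟩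
  set f : ℝ → ℝ := (Ico (-1:ℝ) 0).indicator (fun _ => 1) with hf
  have hgs : ∀ p : E, ∀ x : ℝ, p ∈ (univ : Set E) → x ∉ closedBall (0:ℝ) 2 →
      (fun (p : E) (t : ℝ) => ((ρ t : ℝ) : ℂ) * g (p, t)) p x = 0 := by
    intro p x _ hx
    have : ρ x = 0 := by
      apply ρ.zero_of_le_dist
      show (2:ℝ) ≤ dist x 0
      rw [mem_closedBall] at hx
      linarith
    simp only [this]; simp
  have hfi : LocallyIntegrable f := by
    have : Integrable f := by
      rw [hf, integrable_indicator_iff measurableSet_Ico]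
      exact integrableOn_const measure_Ico_lt_top.ne (by simp)
    exact this.locallyIntegrable
  have hg : ContDiffOn ℝ ∞ (Function.uncurry (fun (p : E) (t : ℝ) => ((ρ t : ℝ) : ℂ) * g (p, t)))
      (univ ×ˢ univ) := by
    apply ContDiff.contDiffOn
    have h1 : ContDiff ℝ ∞ (fun q : E × ℝ => ((ρ q.2 : ℝ) : ℂ)) :=
      Complex.ofRealCLM.contDiff.comp (ρ.contDiff.comp contDiff_snd)
    exact h1.mul hg0
  have key := contDiffOn_convolution_right_with_param_comp (n := ⊤) (ContinuousLinearMap.lsmul ℝ ℝ)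
    (v := fun _ : E => (0:ℝ)) (s := univ) contDiffOn_const (f := f) isOpen_univ
    (isCompact_closedBall (0:ℝ) 2) hgs hfi hg
  rw [contDiffOn_univ] at key
  convert key using 2 with p
  rw [convolution_def]
  have e1 : ∀ t : ℝ, (ContinuousLinearMap.lsmul ℝ ℝ (f t)) (((ρ (0 - t) : ℝ) : ℂ) * g (p, 0 - t))
      = (Ico (-1:ℝ) 0).indicator (fun t : ℝ => g (p, -t)) t := by
    intro t
    rw [hf]
    by_cases ht : t ∈ Ico (-1:ℝ) 0
    · rw [indicator_of_mem ht, indicator_of_mem ht]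
      have : ρ (0 - t) = 1 := by
        apply ρ.one_of_mem_closedBall
        show dist (0 - t) 0 ≤ 1
        rw [dist_zero_right, zero_sub, norm_neg, Real.norm_eq_abs, abs_le]
        exact ⟨ht.1, by linarith [ht.2]⟩
      rw [this]
      simp
    · rw [indicator_of_notMem ht, indicator_of_notMem ht]; simp
  simp_rw [e1]
  rw [integral_indicator measurableSet_Ico, integral_Ico_eq_integral_Ioc,
    ← intervalIntegral.integral_of_le (by norm_num),
    intervalIntegral.integral_comp_neg (fun t : ℝ => g (p, t))]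
  simp

/-- points of the circle -/
noncomputable def ee (t : ℝ) : ℂ := Complex.exp ((t : ℂ) * (2 * Real.pi * I))

theorem ee_smooth : ContDiff ℝ ∞ ee := by
  have h1 : ContDiff ℝ ∞ (fun t : ℝ => (t : ℂ) * (2 * Real.pi * I)) :=
    Complex.ofRealCLM.contDiff.mul contDiff_const
  exact h1.cexp

theorem norm_ee (t : ℝ) : ‖ee t‖ = 1 := by
  have : (t : ℂ) * (2 * Real.pi * I) = ((t * (2 * Real.pi) : ℝ) : ℂ) * I := by push_cast; ring
  rw [ee, this, Complex.norm_exp_ofReal_mul_I]

theorem ee_zero : ee 0 = 1 := by simp [ee]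

theorem ee_one : ee 1 = 1 := by
  rw [ee, Complex.ofReal_one, one_mul, Complex.exp_two_pi_mul_I]

theorem ee_ne (t : ℝ) : ee t ≠ 0 := Complex.exp_ne_zero _

theorem ee_deriv (t : ℝ) : HasDerivAt ee (2 * Real.pi * I * ee t) t := by
  have h1 : HasDerivAt (fun s : ℝ => (s : ℂ) * (2 * Real.pi * I)) (2 * Real.pi * I) t := by
    have := (Complex.ofRealCLM.hasDerivAt (x := t)).mul_const (2 * Real.pi * I)
    simpa using this
  have h2 := h1.cexp
  have h3 : 2 * Real.pi * I * ee t = Complex.exp ((t : ℂ) * (2 * Real.pi * I)) * (2 * Real.pi * I) := by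
    rw [ee]; ring
  rw [h3]
  exact h2

/-- rotation of the first variable -/
noncomputable def rot (t : ℝ) : E →L[ℝ] E :=
  (ee t • (ContinuousLinearMap.fst ℝ ℂ ℂ)).prod (ContinuousLinearMap.snd ℝ ℂ ℂ)

theorem rot_apply (t : ℝ) (p : E) : rot t p = (ee t * p.1, p.2) := rfl

theorem norm_rot (t : ℝ) (p : E) : ‖rot t p‖ = ‖p‖ := by
  rw [rot_apply, Prod.norm_def, Prod.norm_def, norm_mul, norm_ee, one_mul]

/-- the operator `φ ↦ ∫₀¹ κ(t) φ(e(t) z, w) dt` -/
noncomputable def R (κ : ℝ → ℂ) (φ : E → ℂ) (p : E) : ℂ := ∫ t in (0:ℝ)..1, κ t * φ (rot t p)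

theorem smooth_rot : ContDiff ℝ ∞ (fun q : E × ℝ => rot q.2 q.1) := by
  have : (fun q : E × ℝ => rot q.2 q.1) = fun q : E × ℝ => (ee q.2 * q.1.1, q.1.2) := rfl
  rw [this]
  exact ((ee_smooth.comp contDiff_snd).mul (contDiff_fst.comp contDiff_fst)).prodMk
    (contDiff_snd.comp contDiff_fst)

theorem cont_rot (p : E) : Continuous (fun t : ℝ => rot t p) :=
  smooth_rot.continuous.comp (by fun_prop : Continuous fun t : ℝ => (p, t))

theorem R_smooth {κ : ℝ → ℂ} (hκ : ContDiff ℝ ∞ κ) {φ : E → ℂ} (hφ : ContDiff ℝ ∞ φ) :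
    ContDiff ℝ ∞ (R κ φ) := by
  unfold R
  exact smooth_param (g := fun q : E × ℝ => κ q.2 * φ (rot q.2 q.1))
    ((hκ.comp contDiff_snd).mul (hφ.comp smooth_rot))

theorem R_integrand_cont {κ : ℝ → ℂ} (hκ : Continuous κ) {φ : E → ℂ} (hφ : Continuous φ) (p : E) :
    Continuous (fun t : ℝ => κ t * φ (rot t p)) := hκ.mul (hφ.comp (cont_rot p))

theorem fderiv_R {κ : ℝ → ℂ} (hκ : ContDiff ℝ ∞ κ) {φ : E → ℂ} (hφ : Cc φ) (p v : E) :
    fderiv ℝ (R κ φ) p v = ∫ t in (0:ℝ)..1, κ t * fderiv ℝ φ (rot t p) (rot t v) := by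
  have hdφ : Continuous (fderiv ℝ φ) := hφ.1.continuous_fderiv (by simp)
  obtain ⟨C, hC⟩ := (hφ.2.fderiv ℝ).exists_bound_of_continuous hdφ
  have hcr : Continuous (fun q : E × ℝ => rot q.2 q.1) := smooth_rot.continuous
  have hpt : ∀ s : ℝ, Continuous (fun t : ℝ => rot t (p + s • v)) := fun s => cont_rot _
  have hder := intervalIntegral.hasDerivAt_integral_of_dominated_loc_of_deriv_le (μ := volume)
    (a := 0) (b := 1) (x₀ := (0:ℝ)) (s := univ)
    (F := fun s t => κ t * φ (rot t (p + s • v)))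
    (F' := fun s t => κ t * fderiv ℝ φ (rot t (p + s • v)) (rot t v))
    (bound := fun t => ‖κ t‖ * (C * ‖v‖)) univ_mem
    (Eventually.of_forall fun s =>
      (R_integrand_cont hκ.continuous hφ.1.continuous _).aestronglyMeasurable)
    ((R_integrand_cont hκ.continuous hφ.1.continuous _).intervalIntegrable _ _)
    (by
      apply Continuous.aestronglyMeasurable
      exact hκ.continuous.mul ((hdφ.comp (hpt 0)).clm_apply (cont_rot v)))
    (by
      refine ae_of_all _ (fun t _ s _ => ?_)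
      rw [norm_mul]
      refine mul_le_mul_of_nonneg_left ?_ (norm_nonneg _)
      refine (ContinuousLinearMap.le_opNorm _ _).trans ?_
      rw [norm_rot]
      exact mul_le_mul_of_nonneg_right (hC _) (norm_nonneg _))
    ((hκ.continuous.norm.mul continuous_const).intervalIntegrable _ _)
    (by
      refine ae_of_all _ (fun t _ s _ => ?_)
      have h1 : HasDerivAt (fun s : ℝ => p + s • v) v s := by
        have := ((hasDerivAt_id s).smul_const v).const_add p
        simpa using this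
      have h2 : HasDerivAt (fun s : ℝ => rot t (p + s • v)) (rot t v) s :=
        (rot t).hasFDerivAt.comp_hasDerivAt s h1
      have h3 : HasFDerivAt φ (fderiv ℝ φ (rot t (p + s • v))) (rot t (p + s • v)) :=
        (hφ.1.differentiable (by simp) _).hasFDerivAt
      exact (h3.comp_hasDerivAt s h2).const_mul (κ t))
  have h4 : HasDerivAt (fun s : ℝ => p + s • v) v 0 := by
    have := ((hasDerivAt_id (0:ℝ)).smul_const v).const_add p
    simpa using this
  have h5 : HasFDerivAt (R κ φ) (fderiv ℝ (R κ φ) p) (p + (0:ℝ) • v) := by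
    rw [zero_smul, add_zero]
    exact ((R_smooth hκ hφ.1).differentiable (by simp) p).hasFDerivAt
  have h6 := h5.comp_hasDerivAt (0:ℝ) h4
  have h7 := h6.unique hder.2
  rw [h7]
  simp only [zero_smul, add_zero]

theorem R_supp {κ : ℝ → ℂ} {φ : E → ℂ} {p : E} (h : R κ φ p ≠ 0) :
    ∃ t : ℝ, φ (rot t p) ≠ 0 ∧ t ∈ Icc (0:ℝ) 1 := by
  by_contra hn
  push Not at hn
  apply h
  unfold R
  rw [intervalIntegral.integral_of_le (by norm_num)]
  rw [setIntegral_congr_fun measurableSet_Ioc (g := fun _ => (0:ℂ))]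
  · simp
  · intro t ht
    by_cases h0 : φ (rot t p) = 0
    · simp only [h0, mul_zero]
    · exact absurd ⟨ht.1.le, ht.2⟩ (hn t h0)

/-- rotates test functions to test functions -/
theorem R_test {κ : ℝ → ℂ} (hκ : ContDiff ℝ ∞ κ) {φ : E → ℂ} (hφ : IsTest P φ) :
    IsTest P (R κ φ) := by
  set K : Set E := (fun q : E × ℝ => (((ee q.2)⁻¹ * q.1.1, q.1.2) : E)) '' (tsupport φ ×ˢ Icc (0:ℝ) 1)
    with hK
  have hKc : IsCompact K := by
    apply (hφ.2.1.isCompact.prod isCompact_Icc).image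
    have h1 : Continuous (fun q : E × ℝ => (ee q.2)⁻¹) :=
      (ee_smooth.continuous.comp continuous_snd).inv₀ (fun q => ee_ne _)
    exact (h1.mul (by fun_prop)).prodMk (by fun_prop)
  have hsupp : Function.support (R κ φ) ⊆ K := by
    intro p hp
    obtain ⟨t, ht, ht1⟩ := R_supp hp
    refine ⟨(rot t p, t), ⟨subset_tsupport _ ht, ht1⟩, ?_⟩
    rw [rot_apply]
    apply Prod.ext
    · show (ee t)⁻¹ * (ee t * p.1) = p.1
      rw [← mul_assoc, inv_mul_cancel₀ (ee_ne t), one_mul]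
    · rfl
  have hts : tsupport (R κ φ) ⊆ K := closure_minimal hsupp hKc.isClosed
  refine ⟨R_smooth hκ hφ.1, hKc.of_isClosed_subset (isClosed_tsupport _) hts, hts.trans ?_⟩
  rintro _ ⟨⟨q, t⟩, ⟨hq, -⟩, rfl⟩
  have := hφ.2.2 hq
  refine ⟨?_, this.2.1, this.2.2⟩
  show ‖(ee t)⁻¹ * q.1‖ < 1
  rw [norm_mul, norm_inv, norm_ee, inv_one, one_mul]
  exact this.1

theorem lintegral_rot (g : E → ℝ≥0∞) (hg : Measurable g) (t : ℝ) :
    ∫⁻ p : E, g (rot t p) = ∫⁻ p : E, g p := by
  have hm : Measurable (fun p : E => g (rot t p)) := hg.comp (rot t).continuous.measurable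
  have hv : (volume : Measure E) = (volume : Measure ℂ).prod volume := rfl
  rw [hv, lintegral_prod_symm _ hm.aemeasurable, lintegral_prod_symm _ hg.aemeasurable]
  congr 1; funext w
  have h1 := lintegral_cscale (fun z => g (z, w)) (hg.comp (by fun_prop)) (ee_ne t)
  rw [norm_ee] at h1
  rw [h1]
  simp only [one_pow, ENNReal.ofReal_one, one_mul]
  rfl

theorem R_bound {κ : ℝ → ℂ} (hκ : Continuous κ) {C : ℝ} (hC : ∀ t ∈ Ioc (0:ℝ) 1, ‖κ t‖ ≤ C)
    (ψ : E → ℂ) (hψ : Continuous ψ) :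
    eLpNorm (R κ ψ) 2 volume ≤ ENNReal.ofReal C * eLpNorm ψ 2 volume := by
  have hC0 : 0 ≤ C := (norm_nonneg _).trans (hC 1 (by simp))
  rw [eLpNorm_eq_lintegral_rpow_enorm_toReal (by norm_num) (by norm_num),
    eLpNorm_eq_lintegral_rpow_enorm_toReal (by norm_num) (by norm_num)]
  simp only [ENNReal.toReal_ofNat]
  set μ : Measure ℝ := volume.restrict (Ioc 0 1) with hμ
  have hμ1 : μ univ = 1 := by simp [hμ]
  have hpt : ∀ p, ‖R κ ψ p‖ₑ ^ (2:ℝ) ≤
      ∫⁻ t, (ENNReal.ofReal C * ‖ψ (rot t p)‖ₑ) ^ (2:ℝ) ∂μ := by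
    intro p
    have h1 : ‖R κ ψ p‖ₑ ≤ ∫⁻ t, (ENNReal.ofReal C * ‖ψ (rot t p)‖ₑ) ∂μ := by
      unfold R
      rw [intervalIntegral.integral_of_le (by norm_num)]
      refine (enorm_integral_le_lintegral_enorm _).trans ?_
      apply lintegral_mono_ae
      filter_upwards [ae_restrict_mem measurableSet_Ioc] with t ht
      rw [enorm_mul]
      gcongr
      rw [← ofReal_norm]
      exact ENNReal.ofReal_le_ofReal (hC t ht)
    refine (ENNReal.rpow_le_rpow h1 (by norm_num)).trans ?_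
    have := cs_one μ (fun t => ENNReal.ofReal C * ‖ψ (rot t p)‖ₑ) (by
      have hm1 : Measurable (fun t : ℝ => ‖ψ (rot t p)‖ₑ) := ((hψ.comp (cont_rot p)).measurable).enorm
      exact measurable_const.mul hm1)
    rw [hμ1, one_mul] at this
    exact this
  have hcr : Continuous (fun q : E × ℝ => rot q.2 q.1) := smooth_rot.continuous
  have hmeas : Measurable (fun z : E × ℝ => (ENNReal.ofReal C * ‖ψ (rot z.2 z.1)‖ₑ) ^ (2:ℝ)) := by
    apply Measurable.pow_const
    exact measurable_const.mul ((hψ.comp hcr).measurable).enorm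
  have key : ∫⁻ p, ‖R κ ψ p‖ₑ ^ (2:ℝ) ≤ ENNReal.ofReal C ^ (2:ℝ) * ∫⁻ p, ‖ψ p‖ₑ ^ (2:ℝ) := by
    calc ∫⁻ p, ‖R κ ψ p‖ₑ ^ (2:ℝ) ≤ ∫⁻ p : E, ∫⁻ t, (ENNReal.ofReal C * ‖ψ (rot t p)‖ₑ) ^ (2:ℝ) ∂μ :=
          lintegral_mono hpt
      _ = ∫⁻ t, ∫⁻ p : E, (ENNReal.ofReal C * ‖ψ (rot t p)‖ₑ) ^ (2:ℝ) ∂volume ∂μ := by
          rw [lintegral_lintegral_swap]
          exact hmeas.aemeasurable
      _ = ∫⁻ t, (ENNReal.ofReal C ^ (2:ℝ) * ∫⁻ p : E, ‖ψ p‖ₑ ^ (2:ℝ)) ∂μ := by
          congr 1; funext t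
          have hg : Measurable (fun p : E => ‖ψ p‖ₑ ^ (2:ℝ)) := (hψ.measurable.enorm).pow_const _
          have h1 := lintegral_rot _ hg t
          rw [← h1, ← lintegral_const_mul]
          · congr 1; funext p
            rw [ENNReal.mul_rpow_of_nonneg _ _ (by norm_num)]
          · exact hg.comp (rot t).continuous.measurable
      _ = _ := by
          rw [lintegral_const, hμ1, mul_one]
  calc (∫⁻ p, ‖R κ ψ p‖ₑ ^ (2:ℝ)) ^ (1/2:ℝ)
      ≤ (ENNReal.ofReal C ^ (2:ℝ) * ∫⁻ p, ‖ψ p‖ₑ ^ (2:ℝ)) ^ (1/2:ℝ) :=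
        ENNReal.rpow_le_rpow key (by norm_num)
    _ = _ := by
      rw [ENNReal.mul_rpow_of_nonneg _ _ (by norm_num), ← ENNReal.rpow_mul]
      norm_num

theorem bdd_R {κ : ℝ → ℂ} (hκ : ContDiff ℝ ∞ κ) : Bdd P (R κ) where
  add := fun φ ψ hφ hψ p _ => by
    have c1 := R_integrand_cont hκ.continuous hφ.1.continuous p
    have c2 := R_integrand_cont hκ.continuous hψ.1.continuous p
    unfold R
    rw [← intervalIntegral.integral_add (c1.intervalIntegrable _ _) (c2.intervalIntegrable _ _)]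
    congr 1
    funext t
    simp only [Pi.add_apply]
    ring
  smul := fun a φ hφ p _ => by
    unfold R
    rw [← intervalIntegral.integral_const_mul]
    congr 1
    funext t
    simp only [Pi.smul_apply, smul_eq_mul]
    ring
  meas := fun φ hφ => (R_smooth hκ hφ.1).continuous.aestronglyMeasurable
  bound := by
    obtain ⟨C, hC⟩ := (isCompact_Icc (a := (0:ℝ)) (b := 1)).exists_bound_of_continuousOn
      hκ.continuous.continuousOn
    refine ⟨ENNReal.ofReal C, ENNReal.ofReal_ne_top, fun φ hφ => ?_⟩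
    rw [hφ.eLpNorm_eq]
    exact (eLpNorm_restrict_le _ _ _ _).trans
      (R_bound hκ.continuous (fun t ht => hC t ⟨ht.1.le, ht.2⟩) φ hφ.1.continuous)

/-- `cj c` of a product -/
theorem cj_mul_mul {c : ℂ} (hc : c = 1 ∨ c = -1) (x y : ℂ) : cj c (x * y) = cj c x * cj c y := by
  rcases hc with rfl | rfl
  · simp only [cj_one, map_mul]
  · simp only [cj_neg_one]

theorem cj_pow {c : ℂ} (hc : c = 1 ∨ c = -1) (x : ℂ) (n : ℕ) : cj c (x ^ n) = cj c x ^ n := by
  rcases hc with rfl | rfl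
  · simp only [cj_one, map_pow]
  · simp only [cj_neg_one]

/-- rotation and the derivatives in the first variable -/
theorem D1_R {κ : ℝ → ℂ} (hκ : ContDiff ℝ ∞ κ) {c : ℂ} (hc : c = 1 ∨ c = -1) {φ : E → ℂ} (hφ : Cc φ) (p : E) :
    D i1 c (R κ φ) p = R (fun t => κ t * cj c (ee t)) (D i1 c φ) p := by
  have hc2 := hcc hc
  have hφD : ∀ v, Continuous (fun t : ℝ => fderiv ℝ φ (rot t p) (rot t v)) := fun v =>
    ((hφ.1.continuous_fderiv (by simp)).comp (cont_rot p)).clm_apply (cont_rot v)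
  unfold D
  rw [fderiv_R hκ hφ, fderiv_R hκ hφ]
  unfold R
  have i1' : IntervalIntegrable (fun t => κ t * fderiv ℝ φ (rot t p) (rot t (i1 1))) volume 0 1 :=
    (hκ.continuous.mul (hφD _)).intervalIntegrable _ _
  have i2' : IntervalIntegrable (fun t => (c * I) * (κ t * fderiv ℝ φ (rot t p) (rot t (i1 I)))) volume 0 1 :=
    (continuous_const.mul (hκ.continuous.mul (hφD _))).intervalIntegrable _ _
  rw [← intervalIntegral.integral_const_mul, ← intervalIntegral.integral_add i1' i2',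
    ← intervalIntegral.integral_div]
  congr 1
  funext t
  have r1 : rot t (i1 1) = (ee t, 0) := by rw [rot_apply, i1_apply]; simp
  have r2 : rot t (i1 I) = (ee t * I, 0) := by rw [rot_apply, i1_apply]
  rw [r1, r2, fderiv_decomp, fderiv_decomp φ (rot t p) (ee t * I) 0]
  simp only [cj_apply]
  set g1 := fderiv ℝ φ (rot t p) (i1 1)
  set g2 := fderiv ℝ φ (rot t p) (i1 I)
  simp only [Complex.mul_re, Complex.mul_im, Complex.I_re, Complex.I_im,
    mul_zero, zero_sub, Complex.zero_re, Complex.zero_im, Complex.ofReal_zero, mul_one, zero_mul,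
    add_zero, zero_add]
  push_cast
  have := I_mul_I
  linear_combination (κ t * (I * I * ((ee t).im : ℂ) * g2 / 2)) * hc2 + (κ t * (((ee t).im : ℂ) * g2 / 2)) * this

/-- the derivative in the angle -/
noncomputable def Dth (φ : E → ℂ) (p : E) : ℂ := fderiv ℝ φ p (2 * Real.pi * I * p.1, 0)

theorem rot_deriv (p : E) (t : ℝ) :
    HasDerivAt (fun s : ℝ => rot s p) (2 * Real.pi * I * (rot t p).1, 0) t := by
  have h1 : HasDerivAt (fun s : ℝ => ee s * p.1) (2 * Real.pi * I * ee t * p.1) t := (ee_deriv t).mul_const _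
  have h2 : HasDerivAt (fun s : ℝ => ((ee s * p.1, p.2) : E)) (2 * Real.pi * I * ee t * p.1, 0) t :=
    h1.prodMk (hasDerivAt_const _ _)
  have e1 : (2 * Real.pi * I * (rot t p).1 : ℂ) = 2 * Real.pi * I * ee t * p.1 := by
    rw [rot_apply]; ring
  rw [e1]
  exact h2

theorem angle_deriv {φ : E → ℂ} (hφ : ContDiff ℝ ∞ φ) (p : E) (t : ℝ) :
    HasDerivAt (fun s : ℝ => φ (rot s p)) (Dth φ (rot t p)) t := by
  have h1 : HasFDerivAt φ (fderiv ℝ φ (rot t p)) (rot t p) := (hφ.differentiable (by simp) _).hasFDerivAt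
  exact h1.comp_hasDerivAt t (rot_deriv p t)

theorem rot_zero (p : E) : rot 0 p = p := by rw [rot_apply, ee_zero, one_mul]
theorem rot_one (p : E) : rot 1 p = p := by rw [rot_apply, ee_one, one_mul]

theorem cont_Dth {φ : E → ℂ} (hφ : ContDiff ℝ ∞ φ) : Continuous (Dth φ) := by
  unfold Dth
  exact (hφ.continuous_fderiv (by simp)).clm_apply (by fun_prop)

/-- the average of the angular derivative vanishes -/
theorem R_Dth {φ : E → ℂ} (hφ : ContDiff ℝ ∞ φ) (p : E) : R (fun _ => 1) (Dth φ) p = 0 := by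
  unfold R
  simp only [one_mul]
  have h := intervalIntegral.integral_eq_sub_of_hasDerivAt (a := 0) (b := 1)
    (fun t _ => angle_deriv hφ p t) (((cont_Dth hφ).comp (cont_rot p)).intervalIntegrable _ _)
  rw [h, rot_zero, rot_one, sub_self]

/-- the kernel `t - 1/2` -/
noncomputable def kap (t : ℝ) : ℂ := (t : ℂ) - 1 / 2

theorem kap_smooth : ContDiff ℝ ∞ kap := Complex.ofRealCLM.contDiff.sub contDiff_const

theorem kap_deriv (t : ℝ) : HasDerivAt kap 1 t := by
  have h1 : HasDerivAt (fun s : ℝ => (s : ℂ)) 1 t := by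
    have := Complex.ofRealCLM.hasDerivAt (x := t)
    rw [Complex.ofRealCLM_apply, Complex.ofReal_one] at this
    exact this
  exact h1.sub_const (1 / 2 : ℂ)

theorem Dth_R {φ : E → ℂ} (hφ : Cc φ) (p : E) :
    Dth (R kap φ) p = φ p - R (fun _ => 1) φ p := by
  unfold Dth
  rw [fderiv_R kap_smooth hφ]
  have e1 : ∀ t : ℝ, fderiv ℝ φ (rot t p) (rot t (2 * Real.pi * I * p.1, 0)) = Dth φ (rot t p) := by
    intro t
    unfold Dth
    congr 1
    rw [rot_apply, rot_apply]
    apply Prod.ext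
    · show ee t * (2 * Real.pi * I * p.1) = 2 * Real.pi * I * (ee t * p.1)
      ring
    · rfl
  simp_rw [e1]
  have h := intervalIntegral.integral_mul_deriv_eq_deriv_mul (a := (0:ℝ)) (b := 1)
    (u := kap) (u' := fun _ => 1) (v := fun s : ℝ => φ (rot s p)) (v' := fun t => Dth φ (rot t p))
    (fun t _ => kap_deriv t) (fun t _ => angle_deriv hφ.1 p t)
    (continuous_const.intervalIntegrable _ _)
    (((cont_Dth hφ.1).comp (cont_rot p)).intervalIntegrable _ _)
  rw [h, rot_zero, rot_one]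
  unfold R kap
  push_cast
  ring

/-- the angular derivative in divergence form -/
theorem Dth_div {g : E → ℂ} {p : E} (hg : DifferentiableAt ℝ g p) :
    Dth g p = D i1 (-1) (fun q => (2 * Real.pi * I * q.1) * g q) p +
      D i1 1 (fun q => (-(2 * Real.pi * I) * conj q.1) * g q) p := by
  have d1 : DifferentiableAt ℝ (fun q : E => 2 * Real.pi * I * q.1) p :=
    (differentiableAt_fst).const_mul _
  have hcd : DifferentiableAt ℝ (fun q : E => conj q.1) p :=
    ((Complex.conjCLE : ℂ →L[ℝ] ℂ).comp q1).differentiableAt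
  have d2 : DifferentiableAt ℝ (fun q : E => -(2 * Real.pi * I) * conj q.1) p := hcd.const_mul _
  have a1 : D i1 (-1) (fun q : E => 2 * Real.pi * I * q.1) p = 2 * Real.pi * I := by
    have h := D1_cj1 (-1) (-1) p
    simp only [cj_neg_one] at h
    unfold D at h ⊢
    rw [fderiv_const_mul (differentiableAt_fst)]
    simp only [smul_apply, smul_eq_mul]
    linear_combination (2 * Real.pi * I) * h
  have a2 : D i1 1 (fun q : E => -(2 * Real.pi * I) * conj q.1) p = -(2 * Real.pi * I) := by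
    have h := D1_cj1 1 1 p
    simp only [cj_one] at h
    unfold D at h ⊢
    rw [fderiv_const_mul hcd]
    simp only [smul_apply, smul_eq_mul]
    linear_combination (-(2 * Real.pi * I)) * h
  rw [D_mul d1 hg, D_mul d2 hg, a1, a2]
  unfold Dth D
  rw [fderiv_decomp]
  set x := fderiv ℝ g p (i1 1)
  set y := fderiv ℝ g p (i1 I)
  have h1 : p.1 = p.1.re + p.1.im * I := (Complex.re_add_im p.1).symm
  have h2 : conj p.1 = p.1.re - p.1.im * I := by
    apply Complex.ext <;> simp
  rw [h2]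
  have hre : (2 * Real.pi * I * p.1).re = -(2 * Real.pi * p.1.im) := by
    simp
  have him : (2 * Real.pi * I * p.1).im = 2 * Real.pi * p.1.re := by
    simp
  rw [hre, him]
  conv_rhs => rw [h1]
  have := I_mul_I
  simp only [Complex.add_re, Complex.ofReal_re, Complex.mul_re, Complex.I_re, Complex.ofReal_im,
    Complex.I_im, Complex.add_im, Complex.mul_im, mul_zero, mul_one, sub_zero, add_zero, zero_add,
    Complex.zero_re, Complex.zero_im, Complex.ofReal_zero, zero_mul]
  push_cast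
  linear_combination (-(2 * Real.pi * (p.1.im : ℂ) * x)  + 2 * Real.pi * (p.1.re : ℂ) * y) * this

end Pool.Agent.KS6_3.HT
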