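import Mathlib
import Pool.Agent.KS6_3.HT.Rot

set_option autoImplicit false
open MeasureTheory Metric Set Filter Topology Complex
open scoped ContDiff ENNReal ComplexConjugate

namespace Pool.Agent.KS6_3.HT

open Pool.Agent.H807R3

/-- `F` measurable on `P`, with `w ^ n F ∈ L²(P)` -/
def Wn (n : ℕ) (F : E → ℂ) : Prop :=
  AEStronglyMeasurable F (volume.restrict P) ∧ MemLp (fun p => p.2 ^ n * F p) 2 (volume.restrict P)

theorem mP : MeasurableSet P := isOpen_P.measurableSet

theorem meas_pow (n : ℕ) : AEStronglyMeasurable (fun p : E => p.2 ^ n) (volume.restrict P) :=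
  (continuous_snd.pow n).aestronglyMeasurable

theorem Wn.mul {n : ℕ} (n' : ℕ) {F m : E → ℂ} (h : Wn n F) (hm : AEStronglyMeasurable m (volume.restrict P))
    (C : ℝ) (hC : ∀ p ∈ P, ‖p.2‖ ^ n' * ‖m p‖ ≤ C * ‖p.2‖ ^ n) : Wn n' (fun p => m p * F p) := by
  refine ⟨hm.mul h.1, MemLp.of_le_mul (c := C) h.2 ((meas_pow n').mul (hm.mul h.1)) ?_⟩
  filter_upwards [ae_restrict_mem mP] with p hp
  rw [norm_mul, norm_mul, norm_mul, norm_pow, norm_pow]
  have := hC p hp
  calc ‖p.2‖ ^ n' * (‖m p‖ * ‖F p‖) = (‖p.2‖ ^ n' * ‖m p‖) * ‖F p‖ := by ring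
    _ ≤ (C * ‖p.2‖ ^ n) * ‖F p‖ := mul_le_mul_of_nonneg_right this (norm_nonneg _)
    _ = _ := by ring

theorem Wn_zero {F : E → ℂ} : Wn 0 F ↔ MemLp F 2 (volume.restrict P) := by
  unfold Wn
  simp only [pow_zero, one_mul]
  exact ⟨fun h => h.2, fun h => ⟨h.1, h⟩⟩

theorem Wn.mono {n n' : ℕ} {F : E → ℂ} (h : Wn n F) (hn : n ≤ n') : Wn n' F := by
  have := h.mul n' (m := fun _ => 1) aestronglyMeasurable_const 1 (by
    intro p hp
    rw [norm_one, mul_one, one_mul]
    exact pow_le_pow_of_le_one (norm_nonneg _) hp.2.2.le hn)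
  simpa using this

theorem Wn.of_mem {n : ℕ} {F : E → ℂ} (h : MemLp F 2 (volume.restrict P)) : Wn n F :=
  (Wn_zero.2 h).mono (Nat.zero_le _)

theorem Wn.add {n : ℕ} {F G : E → ℂ} (hF : Wn n F) (hG : Wn n G) : Wn n (fun p => F p + G p) := by
  refine ⟨hF.1.add hG.1, ?_⟩
  have := hF.2.add hG.2
  refine this.ae_eq (ae_of_all _ fun p => ?_)
  simp only [Pi.add_apply]
  ring

theorem Wn.sub {n : ℕ} {F G : E → ℂ} (hF : Wn n F) (hG : Wn n G) : Wn n (fun p => F p - G p) := by
  refine ⟨hF.1.sub hG.1, ?_⟩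
  have := hF.2.sub hG.2
  refine this.ae_eq (ae_of_all _ fun p => ?_)
  simp only [Pi.sub_apply]
  ring

theorem Wn.congr {n : ℕ} {F G : E → ℂ} (hF : Wn n F) (h : F =ᵐ[volume.restrict P] G) : Wn n G := by
  refine ⟨hF.1.congr h, hF.2.ae_eq ?_⟩
  filter_upwards [h] with p hp
  rw [hp]

/-- smooth on `P` -/
def SmP (m : E → ℂ) : Prop := ∀ p ∈ P, ContDiffAt ℝ ∞ m p

theorem SmP.of {m : E → ℂ} (h : ContDiff ℝ ∞ m) : SmP m := fun _ _ => h.contDiffAt

theorem Wn.int {n : ℕ} {F : E → ℂ} (h : Wn n F) {θ : E → ℂ} (hθ : IsTest P θ) :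
    Integrable (fun p => F p * θ p) (volume.restrict P) := by
  have h1 : IsTest P (fun p => (p.2 ^ n)⁻¹ * θ p) := by
    apply hθ.mulOn (m := fun p => (p.2 ^ n)⁻¹)
    intro p hp
    exact (contDiffAt_snd.pow n).inv (pow_ne_zero _ (ne_of_P hp))
  have h2 : Integrable (fun p => (p.2 ^ n * F p) * ((p.2 ^ n)⁻¹ * θ p)) (volume.restrict P) :=
    h.2.integrable_mul (h1.cc.memLp.restrict P)
  apply h2.congr
  filter_upwards [ae_restrict_mem mP] with p hp
  have := ne_of_P hp
  field_simp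

/-- du Bois-Reymond on `P` -/
theorem ae_zero_of_test {n : ℕ} {F : E → ℂ} (hF : Wn n F)
    (h : ∀ φ, IsTest P φ → ∫ p in P, F p * φ p = 0) : ∀ᵐ p ∂(volume.restrict P), F p = 0 := by
  have hfin : IsFiniteMeasure (volume.restrict P : Measure E) := by
    refine ⟨?_⟩
    rw [Measure.restrict_apply_univ]
    have : P ⊆ ball (0:E) 1 := by
      intro p hp
      rw [mem_ball_zero_iff, Prod.norm_def]
      exact max_lt hp.1 hp.2.2
    exact (measure_mono this).trans_lt measure_ball_lt_top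
  have hloc : LocallyIntegrableOn (fun p : E => p.2 ^ n * F p) P volume := by
    have : IntegrableOn (fun p : E => p.2 ^ n * F p) P volume := hF.2.integrable (by norm_num)
    exact this.locallyIntegrableOn
  have key := isOpen_P.ae_eq_zero_of_integral_contDiff_smul_eq_zero hloc (by
    intro g hg hgc hgs
    have htest : IsTest P (fun p => ((g p : ℝ) : ℂ)) := by
      refine ⟨Complex.ofRealCLM.contDiff.comp hg, hgc.comp_left (g := fun x : ℝ => (x:ℂ)) (by simp), ?_⟩
      exact (closure_mono (fun p hp => by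
        intro h0
        apply hp
        show ((g p : ℝ) : ℂ) = 0
        rw [h0]; simp)).trans hgs
    have ht2 : IsTest P (fun p => p.2 ^ n * ((g p : ℝ) : ℂ)) := htest.mul (contDiff_snd.pow n)
    have h1 := h _ ht2
    have h2 : ∫ p, g p • (p.2 ^ n * F p) = ∫ p in P, g p • (p.2 ^ n * F p) := by
      rw [setIntegral_eq_integral_of_forall_compl_eq_zero]
      intro p hp
      have : g p = 0 := by
        by_contra hne
        exact hp (hgs (subset_tsupport _ hne))
      rw [this, zero_smul]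
    rw [h2, ← h1]
    congr 1
    funext p
    rw [Complex.real_smul]
    ring)
  rw [ae_restrict_iff' mP]
  filter_upwards [key] with p hp hpP
  have := hp hpP
  exact (mul_eq_zero.1 this).resolve_left (pow_ne_zero _ (ne_of_P hpP))

theorem ae_eq_of_test {n : ℕ} {F G : E → ℂ} (hF : Wn n F) (hG : Wn n G)
    (h : ∀ φ, IsTest P φ → ∫ p in P, F p * φ p = ∫ p in P, G p * φ p) : F =ᵐ[volume.restrict P] G := by
  have := ae_zero_of_test (hF.sub hG) (by
    intro φ hφ
    have e : ∫ p in P, (F p - G p) * φ p = (∫ p in P, F p * φ p) - ∫ p in P, G p * φ p := by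
      rw [← integral_sub (hF.int hφ) (hG.int hφ)]
      congr 1
      funext p
      ring
    rw [e, h φ hφ, sub_self])
  filter_upwards [this] with p hp
  exact sub_eq_zero.1 hp

theorem _root_.Pool.Agent.H807R3.WD.congr {ι : ℂ →L[ℝ] E} {c : ℂ} {F G F' G' : E → ℂ} (h : WD P ι c F G)
    (hF : F =ᵐ[volume.restrict P] F') (hG : G =ᵐ[volume.restrict P] G') : WD P ι c F' G' := by
  intro φ hφ
  have e1 : ∫ p in P, F' p * D ι c φ p = ∫ p in P, F p * D ι c φ p := by
    apply integral_congr_ae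
    filter_upwards [hF] with p hp
    rw [hp]
  have e2 : ∫ p in P, G' p * φ p = ∫ p in P, G p * φ p := by
    apply integral_congr_ae
    filter_upwards [hG] with p hp
    rw [hp]
  rw [e1, e2]
  exact h φ hφ

theorem int_lin {n n' : ℕ} {F G : E → ℂ} (hF : Wn n F) (hG : Wn n' G) (a b : ℂ) {φ : E → ℂ} (hφ : IsTest P φ) :
    ∫ p in P, (a * F p + b * G p) * φ p = a * (∫ p in P, F p * φ p) + b * ∫ p in P, G p * φ p := by
  rw [← integral_const_mul, ← integral_const_mul,
    ← integral_add ((hF.int hφ).const_mul a) ((hG.int hφ).const_mul b)]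
  congr 1
  funext p
  ring

theorem _root_.Pool.Agent.H807R3.WD.lin {n n' l l' : ℕ} {ι : ℂ →L[ℝ] E} {c : ℂ} {F G F' G' : E → ℂ} (a b : ℂ)
    (h : WD P ι c F G) (h' : WD P ι c F' G') (hF : Wn n F) (hF' : Wn n' F') (hG : Wn l G) (hG' : Wn l' G') :
    WD P ι c (fun p => a * F p + b * F' p) (fun p => a * G p + b * G' p) := by
  intro φ hφ
  rw [int_lin hF hF' a b (hφ.D ι c), int_lin hG hG' a b hφ, h φ hφ, h' φ hφ]
  ring

/-- product with a smooth function -/
theorem _root_.Pool.Agent.H807R3.WD.smul {n n' : ℕ} {ι : ℂ →L[ℝ] E} {c : ℂ} {F G m m' : E → ℂ}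
    (h : WD P ι c F G) (hF : Wn n F) (hG : Wn n' G) (hm : SmP m) (hm' : ∀ p ∈ P, D ι c m p = m' p) :
    WD P ι c (fun p => m p * F p) (fun p => m p * G p + m' p * F p) := by
  intro ψ hψ
  have t1 : IsTest P (fun p => m p * ψ p) := hψ.mulOn hm
  have t2 : IsTest P (fun p => m p * D ι c ψ p) := (hψ.D ι c).mulOn hm
  have t3 := t1.D ι c
  have hd : ∀ p ∈ P, D ι c (fun p => m p * ψ p) p = m' p * ψ p + m p * D ι c ψ p := by
    intro p hp
    rw [D_mul ((hm p hp).differentiableAt (by simp)) (hψ.1.differentiable (by simp) p), hm' p hp]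
  have e1 : ∫ p in P, (m p * F p) * D ι c ψ p = ∫ p in P, F p * (m p * D ι c ψ p) := by
    congr 1; funext p; ring
  have e2 : ∫ p in P, (m p * G p + m' p * F p) * ψ p =
      (∫ p in P, G p * (m p * ψ p)) + ((∫ p in P, F p * D ι c (fun p => m p * ψ p) p) -
        ∫ p in P, F p * (m p * D ι c ψ p)) := by
    rw [← integral_sub (hF.int t3) (hF.int t2)]
    have i3 : Integrable (fun p => F p * D ι c (fun p => m p * ψ p) p - F p * (m p * D ι c ψ p))
      (volume.restrict P) := (hF.int t3).sub (hF.int t2)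
    rw [← integral_add (hG.int t1) i3]
    apply setIntegral_congr_fun mP
    intro p hp
    simp only
    rw [hd p hp]
    ring
  rw [e1, e2, h _ t1]
  ring

/-- derivatives of holomorphic functions of `w` -/
theorem D2_hol {h : ℂ → ℂ} {h' : ℂ} {p : E} (hh : HasDerivAt h h' p.2) (c : ℂ) :
    D i2 c (fun q : E => h q.2) p = (1 - c) / 2 * h' := by
  have h0 : HasFDerivAt (fun q : E => h q.2)
      ((ContinuousLinearMap.restrictScalars ℝ (ContinuousLinearMap.toSpanSingleton ℂ h')).comp q2) p :=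
    (hh.hasFDerivAt.restrictScalars ℝ).comp p (q2.hasFDerivAt (x := p))
  unfold D
  rw [h0.fderiv]
  simp only [ContinuousLinearMap.comp_apply, q2_i2, ContinuousLinearMap.coe_restrictScalars',
    ContinuousLinearMap.toSpanSingleton_apply, smul_eq_mul]
  have := I_mul_I
  linear_combination (c * h' / 2) * this

theorem D1_hol {h : ℂ → ℂ} {h' : ℂ} {p : E} (hh : HasDerivAt h h' p.2) (c : ℂ) :
    D i1 c (fun q : E => h q.2) p = 0 := by
  have h0 : HasFDerivAt (fun q : E => h q.2)
      ((ContinuousLinearMap.restrictScalars ℝ (ContinuousLinearMap.toSpanSingleton ℂ h')).comp q2) p :=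
    (hh.hasFDerivAt.restrictScalars ℝ).comp p (q2.hasFDerivAt (x := p))
  unfold D
  rw [h0.fderiv]
  simp only [ContinuousLinearMap.comp_apply, q2_i1, map_zero]
  simp

/-- direction lemma -/
theorem dir1 {c : ℂ} (hc : c * c = 1) (L : E →L[ℝ] ℂ) (α : ℂ) :
    L (α, 0) + c * I * L (α * I, 0) = cj c α * (L (1, 0) + c * I * L (I, 0)) := by
  have h1 : ((α, 0) : E) = α.re • ((1, 0) : E) + α.im • ((I, 0) : E) := by
    apply Prod.ext
    · apply Complex.ext <;> simp
    · simp
  have h2 : ((α * I, 0) : E) = (-α.im) • ((1, 0) : E) + α.re • ((I, 0) : E) := by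
    apply Prod.ext
    · apply Complex.ext <;> simp
    · simp
  rw [h1, h2, map_add, map_add, map_smul, map_smul, map_smul, map_smul, cj_apply]
  simp only [Complex.real_smul]
  push_cast
  have := I_mul_I
  linear_combination (I * I * (α.im : ℂ) * L (I, 0)) * hc + ((α.im : ℂ) * L (I, 0)) * this

end Pool.Agent.KS6_3.HT
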