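import Mathlib
import Pool.Agent.KS6_3.HT.Wn

set_option autoImplicit false
open MeasureTheory Metric Set Filter Topology Complex
open scoped ContDiff ENNReal ComplexConjugate

namespace Pool.Agent.KS6_3.HT

open Pool.Agent.H807R3

/-- Hardy averaging operator with weight -/
noncomputable def Hk (m : ℕ) (ψ : E → ℂ) (p : E) : ℂ :=
  ∫ t in (0:ℝ)..1, (t:ℂ) ^ (m + 1) * ψ (p.1, (t:ℂ) * p.2)

variable {m : ℕ}

theorem Hk_smooth {ψ : E → ℂ} (hψ : ContDiff ℝ ∞ ψ) : ContDiff ℝ ∞ (Hk m ψ) := by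
  unfold Hk
  have h2 : ContDiff ℝ ∞ (fun q : E × ℝ => ((q.2 : ℝ) : ℂ)) :=
    Complex.ofRealCLM.contDiff.comp contDiff_snd
  have h3 : ContDiff ℝ ∞ (fun q : E × ℝ => ψ (q.1.1, ((q.2 : ℝ) : ℂ) * q.1.2)) := by
    apply hψ.comp
    exact (contDiff_fst.comp contDiff_fst).prodMk (h2.mul (contDiff_snd.comp contDiff_fst))
  exact smooth_param (g := fun q : E × ℝ => (q.2 : ℂ) ^ (m + 1) * ψ (q.1.1, (q.2 : ℂ) * q.1.2))
    ((h2.pow _).mul h3)

theorem Hk_euler {ψ : E → ℂ} (hψ : ContDiff ℝ ∞ ψ) (p : E) :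
    fderiv ℝ (Hk m ψ) p (0, p.2) + (m + 2) * Hk m ψ p = ψ p := by
  have hc : Continuous (fun τ : ℝ => (τ:ℂ) ^ (m + 1) * ψ (p.1, (τ:ℂ) * p.2)) := by
    have := hψ.continuous
    fun_prop
  have h2 : HasDerivAt (fun s : ℝ => ∫ τ in (0:ℝ)..s, (τ:ℂ) ^ (m + 1) * ψ (p.1, (τ:ℂ) * p.2))
      (((1:ℝ):ℂ) ^ (m + 1) * ψ (p.1, ((1:ℝ):ℂ) * p.2)) 1 :=
    intervalIntegral.integral_hasDerivAt_right (hc.intervalIntegrable _ _)
      (hc.stronglyMeasurableAtFilter _ _) hc.continuousAt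
  have e : ∀ s : ℝ, ((s:ℂ) ^ (m + 2)) * Hk m ψ (p.1, (s:ℂ) * p.2) =
      ∫ τ in (0:ℝ)..s, (τ:ℂ) ^ (m + 1) * ψ (p.1, (τ:ℂ) * p.2) := by
    intro s
    have h := intervalIntegral.smul_integral_comp_mul_right (a := 0) (b := 1)
      (fun τ : ℝ => (τ:ℂ) ^ (m + 1) * ψ (p.1, (τ:ℂ) * p.2)) s
    rw [zero_mul, one_mul] at h
    rw [← h]
    unfold Hk
    rw [Complex.real_smul, ← intervalIntegral.integral_const_mul, ← intervalIntegral.integral_const_mul]
    apply intervalIntegral.integral_congr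
    intro t _
    simp only
    push_cast
    have : (t:ℂ) * ((s:ℂ) * p.2) = (t:ℂ) * (s:ℂ) * p.2 := by ring
    rw [this]; ring
  have h1 : HasDerivAt (fun s : ℝ => ((s:ℂ) ^ (m + 2)) * Hk m ψ (p.1, (s:ℂ) * p.2))
      (((m + 2) * Hk m ψ p) + fderiv ℝ (Hk m ψ) p (0, p.2)) 1 := by
    have ha : HasDerivAt (fun s : ℝ => ((s:ℂ) ^ (m + 2))) (m + 2) 1 := by
      have h0 : HasDerivAt (fun s : ℝ => (s:ℂ)) 1 1 := by
        have h8 := (Complex.ofRealCLM.hasDerivAt (x := (1:ℝ)))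
        have h9 : Complex.ofRealCLM 1 = 1 := by simp
        rw [h9] at h8
        exact h8
      have h10 : HasDerivAt (fun s : ℝ => ((s:ℂ) ^ (m + 2)))
        (((m + 2 : ℕ) : ℂ) * ((1:ℝ):ℂ) ^ (m + 2 - 1) * 1) 1 := h0.pow (m + 2)
      refine h10.congr_deriv ?_
      push_cast
      rw [one_pow]
      ring
    have hb : HasDerivAt (fun s : ℝ => ((p.1, (s:ℂ) * p.2) : E)) (0, p.2) 1 := by
      apply HasDerivAt.prodMk
      · exact hasDerivAt_const _ _
      · have := (Complex.ofRealCLM.hasDerivAt (x := (1:ℝ))).mul_const p.2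
        simpa using this
    have hp : ((p.1, ((1:ℝ):ℂ) * p.2) : E) = p := by simp
    have hF : HasFDerivAt (Hk m ψ) (fderiv ℝ (Hk m ψ) p) ((p.1, ((1:ℝ):ℂ) * p.2) : E) := by
      rw [hp]
      exact ((Hk_smooth hψ).differentiable (by simp) p).hasFDerivAt
    have hcomp := hF.comp_hasDerivAt (1:ℝ) hb
    have h9 : HasDerivAt (fun s : ℝ => ((s:ℂ) ^ (m + 2)) * Hk m ψ (p.1, (s:ℂ) * p.2))
      ((m + 2) * Hk m ψ (p.1, ((1:ℝ):ℂ) * p.2) + ((1:ℝ):ℂ) ^ (m + 2) * (fderiv ℝ (Hk m ψ) p (0, p.2))) 1 :=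
      ha.mul hcomp
    rw [hp] at h9
    exact h9.congr_deriv (by simp)
  have h3 : HasDerivAt (fun s : ℝ => ((s:ℂ) ^ (m + 2)) * Hk m ψ (p.1, (s:ℂ) * p.2))
      (((1:ℝ):ℂ) ^ (m + 1) * ψ (p.1, ((1:ℝ):ℂ) * p.2)) 1 := by
    have : (fun s : ℝ => ((s:ℂ) ^ (m + 2)) * Hk m ψ (p.1, (s:ℂ) * p.2)) =
      (fun s : ℝ => ∫ τ in (0:ℝ)..s, (τ:ℂ) ^ (m + 1) * ψ (p.1, (τ:ℂ) * p.2)) := funext e
    rw [this]; exact h2
  have := h1.unique h3
  simp only [Complex.ofReal_one, one_mul, one_pow] at this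
  rw [add_comm]
  exact this

theorem Hk_bound (ψ : E → ℂ) (hψ : Continuous ψ) : eLpNorm (Hk m ψ) 2 volume ≤ eLpNorm ψ 2 volume := by
  rw [eLpNorm_eq_lintegral_rpow_enorm_toReal (by norm_num) (by norm_num),
    eLpNorm_eq_lintegral_rpow_enorm_toReal (by norm_num) (by norm_num)]
  simp only [ENNReal.toReal_ofNat]
  apply ENNReal.rpow_le_rpow _ (by norm_num)
  set μ : Measure ℝ := volume.restrict (Ioc 0 1) with hμ
  have hμ1 : μ univ = 1 := by simp [hμ]
  have hpt : ∀ p, ‖Hk m ψ p‖ₑ ^ (2:ℝ) ≤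
      ∫⁻ t, (ENNReal.ofReal t * ‖ψ (p.1, (t:ℂ) * p.2)‖ₑ) ^ (2:ℝ) ∂μ := by
    intro p
    have h1 : ‖Hk m ψ p‖ₑ ≤ ∫⁻ t, (ENNReal.ofReal t * ‖ψ (p.1, (t:ℂ) * p.2)‖ₑ) ∂μ := by
      unfold Hk
      rw [intervalIntegral.integral_of_le (by norm_num)]
      refine (enorm_integral_le_lintegral_enorm _).trans ?_
      apply lintegral_mono_ae
      filter_upwards [ae_restrict_mem measurableSet_Ioc] with t ht
      rw [enorm_mul]
      gcongr
      rw [← ofReal_norm, norm_pow, Complex.norm_real, Real.norm_of_nonneg ht.1.le]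
      apply ENNReal.ofReal_le_ofReal
      exact pow_le_of_le_one ht.1.le ht.2 (by omega)
    refine (ENNReal.rpow_le_rpow h1 (by norm_num)).trans ?_
    have := cs_one μ (fun t => ENNReal.ofReal t * ‖ψ (p.1, (t:ℂ) * p.2)‖ₑ) (by
      have a1 : Measurable (fun t : ℝ => ‖ψ (p.1, (t:ℂ) * p.2)‖ₑ) :=
        (Continuous.measurable (by fun_prop)).enorm
      exact ENNReal.measurable_ofReal.mul a1)
    rw [hμ1, one_mul] at this
    exact this
  have hmeas : Measurable (fun z : E × ℝ => (ENNReal.ofReal z.2 * ‖ψ (z.1.1, (z.2:ℂ) * z.1.2)‖ₑ) ^ (2:ℝ)) := by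
    apply Measurable.pow_const
    have a1 : Measurable (fun z : E × ℝ => ENNReal.ofReal z.2) := ENNReal.measurable_ofReal.comp measurable_snd
    have a2 : Measurable (fun z : E × ℝ => ‖ψ (z.1.1, (z.2:ℂ) * z.1.2)‖ₑ) :=
      (Continuous.measurable (by fun_prop)).enorm
    exact a1.mul a2
  calc ∫⁻ p, ‖Hk m ψ p‖ₑ ^ (2:ℝ) ≤ ∫⁻ p : E, ∫⁻ t, (ENNReal.ofReal t * ‖ψ (p.1, (t:ℂ) * p.2)‖ₑ) ^ (2:ℝ) ∂μ :=
        lintegral_mono hpt
    _ = ∫⁻ t, ∫⁻ p : E, (ENNReal.ofReal t * ‖ψ (p.1, (t:ℂ) * p.2)‖ₑ) ^ (2:ℝ) ∂volume ∂μ := by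
        rw [lintegral_lintegral_swap]
        exact hmeas.aemeasurable
    _ = ∫⁻ t, (∫⁻ p : E, ‖ψ p‖ₑ ^ (2:ℝ)) ∂μ := by
        apply lintegral_congr_ae
        filter_upwards [ae_restrict_mem measurableSet_Ioc] with t ht
        have ht0 : 0 < t := ht.1
        have hg : Measurable (fun p : E => ‖ψ p‖ₑ ^ (2:ℝ)) := (hψ.measurable.enorm).pow_const _
        have h1 := lintegral_scale _ hg ht0
        calc ∫⁻ p : E, (ENNReal.ofReal t * ‖ψ (p.1, (t:ℂ) * p.2)‖ₑ) ^ (2:ℝ)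
            = ∫⁻ p : E, ENNReal.ofReal t ^ (2:ℝ) * ‖ψ (p.1, (t:ℂ) * p.2)‖ₑ ^ (2:ℝ) := by
              congr 1; funext p
              rw [ENNReal.mul_rpow_of_nonneg _ _ (by norm_num)]
          _ = ENNReal.ofReal t ^ (2:ℝ) * ∫⁻ p : E, ‖ψ (p.1, (t:ℂ) * p.2)‖ₑ ^ (2:ℝ) := by
              rw [lintegral_const_mul]
              exact ((Continuous.measurable (by fun_prop)).enorm).pow_const _
          _ = ∫⁻ p : E, ‖ψ p‖ₑ ^ (2:ℝ) := by
              rw [h1, ← mul_assoc]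
              have : ENNReal.ofReal t ^ (2:ℝ) * ENNReal.ofReal ((t ^ 2)⁻¹) = 1 := by
                rw [ENNReal.ofReal_rpow_of_pos ht0, ← ENNReal.ofReal_mul (by positivity)]
                rw [Real.rpow_two, mul_inv_cancel₀ (by positivity)]
                simp
              rw [this, one_mul]
    _ = ∫⁻ p, ‖ψ p‖ₑ ^ (2:ℝ) := by
        rw [lintegral_const, hμ1, mul_one]

theorem bdd_Hk : Bdd P (Hk m) where
  add := fun φ ψ hφ hψ p _ => by
    have c1 : Continuous (fun t : ℝ => (t:ℂ) ^ (m + 1) * φ (p.1, (t:ℂ) * p.2)) := by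
      have := hφ.1.continuous
      fun_prop
    have c2 : Continuous (fun t : ℝ => (t:ℂ) ^ (m + 1) * ψ (p.1, (t:ℂ) * p.2)) := by
      have := hψ.1.continuous
      fun_prop
    unfold Hk
    rw [← intervalIntegral.integral_add (c1.intervalIntegrable _ _) (c2.intervalIntegrable _ _)]
    congr 1
    funext t
    simp only [Pi.add_apply]
    ring
  smul := fun a φ hφ p _ => by
    unfold Hk
    rw [← intervalIntegral.integral_const_mul]
    congr 1
    funext t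
    simp only [Pi.smul_apply, smul_eq_mul]
    ring
  meas := fun φ hφ => (Hk_smooth hφ.1).continuous.aestronglyMeasurable
  bound := ⟨1, ENNReal.one_ne_top, fun φ hφ => by
    rw [hφ.eLpNorm_eq, one_mul]
    exact (eLpNorm_restrict_le _ _ _ _).trans (Hk_bound φ hφ.1.continuous)⟩

theorem Hk_supp {ψ : E → ℂ} {p : E} (h : Hk m ψ p ≠ 0) :
    ∃ t : ℝ, 0 < t ∧ t ≤ 1 ∧ ψ (p.1, (t:ℂ) * p.2) ≠ 0 := by
  by_contra hn
  push Not at hn
  apply h
  unfold Hk
  rw [intervalIntegral.integral_of_le (by norm_num)]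
  rw [setIntegral_congr_fun measurableSet_Ioc (g := fun _ => (0:ℂ))]
  · simp
  · intro t ht
    simp only
    rw [hn t ht.1 ht.2, mul_zero]

theorem test_cut_k {ψ : E → ℂ} (hψ : IsTest P ψ) {χ : E → ℂ} (hχ : ContDiff ℝ ∞ χ)
    (hχs : ∀ p, χ p ≠ 0 → ‖p.2‖ ≤ 3/4) : IsTest P (fun p => χ p * Hk m ψ p) := by
  obtain ⟨R, hR⟩ : ∃ R : ℝ, ∀ q ∈ tsupport ψ, ‖(‖q.2‖⁻¹ : ℝ)‖ ≤ R := by
    apply hψ.2.1.isCompact.exists_bound_of_continuousOn (f := fun q : E => (‖q.2‖⁻¹ : ℝ))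
    intro q hq
    have h0 : ‖q.2‖ ≠ 0 := (hψ.2.2 hq).2.1.ne'
    have : ContinuousAt (fun q : E => (‖q.2‖⁻¹ : ℝ)) q := by
      exact ContinuousAt.inv₀ (f := fun q : E => ‖q.2‖) (by fun_prop) h0
    exact this.continuousWithinAt
  set K : Set E := (fun z : E × ℝ => ((z.1.1, (z.2:ℂ) * z.1.2) : E)) '' (tsupport ψ ×ˢ Icc (1:ℝ) R) with hK
  have hKc : IsCompact K := (hψ.2.1.isCompact.prod isCompact_Icc).image (by fun_prop)
  set K' : Set E := K ∩ {p : E | ‖p.2‖ ≤ 3/4} with hK'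
  have hcl : IsClosed {p : E | ‖p.2‖ ≤ 3/4} := isClosed_le (by fun_prop) continuous_const
  have hK'c : IsCompact K' := hKc.inter_right hcl
  have hsub : Function.support (fun p => χ p * Hk m ψ p) ⊆ K' := by
    intro p hp
    have h1 : χ p ≠ 0 := left_ne_zero_of_mul hp
    have h2 : Hk m ψ p ≠ 0 := right_ne_zero_of_mul hp
    obtain ⟨t, ht0, ht1, hne⟩ := Hk_supp h2
    have hmem : ((p.1, (t:ℂ) * p.2) : E) ∈ tsupport ψ := subset_tsupport _ hne
    have hp34 := hχs p h1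
    refine ⟨⟨((p.1, (t:ℂ) * p.2), t⁻¹), ⟨hmem, ?_, ?_⟩, ?_⟩, hp34⟩
    · exact (one_le_inv₀ ht0).2 ht1
    · have h3 := hR _ hmem
      have h4 := (hψ.2.2 hmem).2.1
      simp only [norm_mul, Complex.norm_real, Real.norm_of_nonneg ht0.le] at h3 h4
      rw [norm_inv, norm_mul, norm_norm, Real.norm_of_nonneg ht0.le, mul_inv] at h3
      have h5 : 0 < ‖p.2‖ := pos_of_mul_pos_right h4 ht0.le
      have h6 : 1 ≤ ‖p.2‖⁻¹ := (one_le_inv₀ h5).2 (by linarith)
      have h7 : 0 < t⁻¹ := inv_pos.2 ht0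
      nlinarith
    · have : (t:ℂ) ≠ 0 := by exact_mod_cast ht0.ne'
      simp [this]
  have hts : tsupport (fun p => χ p * Hk m ψ p) ⊆ K' := closure_minimal hsub hK'c.isClosed
  refine ⟨hχ.mul (Hk_smooth hψ.1), ?_, hts.trans ?_⟩
  · exact hK'c.of_isClosed_subset (isClosed_tsupport _) hts
  · rintro _ ⟨⟨⟨q, s⟩, ⟨hq, hs⟩, rfl⟩, h34⟩
    have h34' : ‖(s:ℂ) * q.2‖ ≤ 3/4 := h34
    have hq' := hψ.2.2 hq
    have hs1 : 1 ≤ s := hs.1
    refine ⟨hq'.1, ?_, ?_⟩
    · show 0 < ‖(s:ℂ) * q.2‖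
      rw [norm_mul, Complex.norm_real, Real.norm_of_nonneg (by linarith)]
      exact mul_pos (by linarith) hq'.2.1
    · show ‖(s:ℂ) * q.2‖ < 1
      linarith

/-- divergence identity -/
theorem euler_k {g : E → ℂ} {p : E} (hg : ContDiff ℝ ∞ g) :
    D i2 (-1) (fun q => q.2 ^ (m + 1) * g q) p + D i2 1 (fun q => (conj q.2 * q.2 ^ m) * g q) p =
      p.2 ^ m * ((m + 2) * g p + fderiv ℝ g p (0, p.2)) := by
  have hgd : DifferentiableAt ℝ g p := hg.differentiable (by simp) p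
  have d2 : DifferentiableAt ℝ (fun q : E => conj q.2) p :=
    ((Complex.conjCLE : ℂ →L[ℝ] ℂ).comp q2).differentiableAt
  have dm : ∀ n : ℕ, DifferentiableAt ℝ (fun q : E => q.2 ^ n) p := fun n => differentiableAt_snd.fun_pow n
  have h0 := euler_id hgd
  have d1 : DifferentiableAt ℝ (fun q : E => q.2) p := differentiableAt_snd
  rw [D_mul d1 hgd, D_mul d2 hgd, D_snd, D_conj_snd] at h0
  have e1 : ∀ n : ℕ, D i2 (-1) (fun q : E => q.2 ^ (n + 1)) p = (n + 1) * p.2 ^ n := by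
    intro n
    have := D2_hol (h := fun w => w ^ (n + 1)) (hasDerivAt_pow (n + 1) p.2) (-1)
    rw [this]
    push_cast
    ring
  have e2 : ∀ n : ℕ, D i2 1 (fun q : E => q.2 ^ n) p = 0 := by
    intro n
    have := D2_hol (h := fun w => w ^ n) (hasDerivAt_pow n p.2) 1
    rw [this]
    ring
  rw [D_mul (dm _) hgd, D_mul (a := fun q : E => conj q.2 * q.2 ^ m) (d2.fun_mul (dm m)) hgd,
    D_mul d2 (dm m), e1, e2, D_conj_snd]
  linear_combination p.2 ^ m * h0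

/-- weighted Hardy inequality -/
theorem hardy_k {F V W : E → ℂ} (hF : Wn (m + 1) F) (hV : Wn (m + 1) V) (hW : Wn (m + 1) W)
    (wV : WD P i2 (-1) F V) (wW : WD P i2 1 F W) : Wn m F := by
  have hPm := isOpen_P.measurableSet
  let b : ContDiffBump (0 : ℂ) := ⟨1/2, 3/4, by norm_num, by norm_num⟩
  set β : ℂ → ℂ := fun z => ((b z : ℝ) : ℂ) with hβ
  have hβs : ContDiff ℝ ∞ β := Complex.ofRealCLM.contDiff.comp b.contDiff
  have hβc : HasCompactSupport β := b.hasCompactSupport.comp_left (g := fun x : ℝ => (x:ℂ)) (by simp)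
  set χ : E → ℂ := fun p => β (q2 p) with hχ
  have hχs : ContDiff ℝ ∞ χ := hβs.comp q2.contDiff
  have hχ1 : ∀ p, ‖χ p‖ ≤ 1 := by
    intro p
    simp only [hχ, hβ, Complex.norm_real, Real.norm_eq_abs]
    rw [abs_of_nonneg (b.nonneg)]
    exact b.le_one
  have hχ34 : ∀ p, χ p ≠ 0 → ‖p.2‖ ≤ 3/4 := by
    intro p hp
    by_contra hlt
    push Not at hlt
    apply hp
    simp only [hχ, hβ]
    rw [b.zero_of_le_dist]
    · simp
    · show (3/4:ℝ) ≤ dist (q2 p) 0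
      rw [dist_zero_right, q2_apply]; exact hlt.le
  have hχ12 : ∀ p : E, ‖p.2‖ < 1/2 → χ =ᶠ[𝓝 p] fun _ => 1 := by
    intro p hp
    have hopen : IsOpen {q : E | ‖q.2‖ < 1/2} := isOpen_lt (by fun_prop) continuous_const
    filter_upwards [hopen.mem_nhds hp] with q hq
    have hq' : ‖q.2‖ < 1/2 := hq
    simp only [hχ, hβ]
    rw [b.one_of_mem_closedBall]
    · simp
    · rw [mem_closedBall_zero_iff, q2_apply]; exact hq'.le
  set e : E → ℂ := fun p => fderiv ℝ χ p (0, p.2) with he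
  have hec : Continuous e := by
    have := hχs.continuous_fderiv (by simp)
    simp only [he]
    fun_prop
  have hfβ : Continuous (fderiv ℝ β) := hβs.continuous_fderiv (by simp)
  obtain ⟨C, hC⟩ := (hβc.fderiv ℝ).exists_bound_of_continuous hfβ
  have hC0 : 0 ≤ C := (norm_nonneg _).trans (hC 0)
  have hχd : ∀ p, fderiv ℝ χ p = (fderiv ℝ β (q2 p)).comp q2 := by
    intro p
    exact (((hβs.differentiable (by simp) _).hasFDerivAt).comp p q2.hasFDerivAt).fderiv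
  have he1 : ∀ p ∈ P, ‖e p‖ ≤ (2 * C) * ‖p.2‖ := by
    intro p hp
    simp only [he]
    rw [hχd]
    have h1 : ‖((fderiv ℝ β (q2 p)).comp q2) (0, p.2)‖ ≤ C * ‖p.2‖ := by
      rw [ContinuousLinearMap.comp_apply]
      exact (ContinuousLinearMap.le_opNorm _ _).trans (mul_le_mul_of_nonneg_right (hC _) (norm_nonneg _))
    have : 0 ≤ C * ‖p.2‖ := by positivity
    linarith
  have h1χ : ∀ p ∈ P, ‖1 - χ p‖ ≤ 4 * ‖p.2‖ := by
    intro p hp
    rcases lt_or_ge ‖p.2‖ (1/2) with h | h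
    · rw [(hχ12 p h).eq_of_nhds]
      simp
    · have : ‖1 - χ p‖ ≤ 2 := by
        calc ‖1 - χ p‖ ≤ ‖(1:ℂ)‖ + ‖χ p‖ := norm_sub_le _ _
          _ ≤ 2 := by have := hχ1 p; rw [norm_one]; linarith
      linarith
  have m1 : MemLp (fun p => (p.2 ^ (m + 1) * χ p) * V p) 2 (volume.restrict P) := by
    apply Wn_zero.1
    apply hV.mul (m := fun p => p.2 ^ (m + 1) * χ p) 0
      ((continuous_snd.pow _).mul hχs.continuous).aestronglyMeasurable 1
    intro p _
    rw [norm_mul, norm_pow, pow_zero, one_mul, one_mul]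
    exact mul_le_of_le_one_right (by positivity) (hχ1 p)
  have m2 : MemLp (fun p => ((conj p.2 * p.2 ^ m) * χ p) * W p) 2 (volume.restrict P) := by
    apply Wn_zero.1
    apply hW.mul (m := fun p => (conj p.2 * p.2 ^ m) * χ p) 0
      (((Complex.continuous_conj.comp continuous_snd).mul (continuous_snd.pow m)).mul
        hχs.continuous).aestronglyMeasurable 1
    intro p _
    rw [norm_mul, norm_mul, norm_pow, pow_zero, one_mul, one_mul, Complex.norm_conj, ← pow_succ']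
    exact mul_le_of_le_one_right (by positivity) (hχ1 p)
  have m3 : MemLp (fun p => (p.2 ^ m * e p) * F p) 2 (volume.restrict P) := by
    apply Wn_zero.1
    apply hF.mul (m := fun p => p.2 ^ m * e p) 0
      ((continuous_snd.pow m).mul hec).aestronglyMeasurable (2 * C)
    intro p hp
    rw [norm_mul, norm_pow, pow_zero, one_mul]
    calc ‖p.2‖ ^ m * ‖e p‖ ≤ ‖p.2‖ ^ m * ((2 * C) * ‖p.2‖) :=
          mul_le_mul_of_nonneg_left (he1 p hp) (by positivity)
      _ = _ := by ring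
  have m4 : MemLp (fun p => (p.2 ^ m * (1 - χ p)) * F p) 2 (volume.restrict P) := by
    apply Wn_zero.1
    apply hF.mul (m := fun p => p.2 ^ m * (1 - χ p)) 0
      ((continuous_snd.pow m).mul (continuous_const.sub hχs.continuous)).aestronglyMeasurable 4
    intro p hp
    rw [norm_mul, norm_pow, pow_zero, one_mul]
    calc ‖p.2‖ ^ m * ‖1 - χ p‖ ≤ ‖p.2‖ ^ m * (4 * ‖p.2‖) :=
          mul_le_mul_of_nonneg_left (h1χ p hp) (by positivity)
      _ = _ := by ring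
  set A : E → ℂ := fun p => (p.2 ^ (m + 1) * χ p) * V p + ((conj p.2 * p.2 ^ m) * χ p) * W p +
    (p.2 ^ m * e p) * F p with hA
  have mA : MemLp A 2 (volume.restrict P) := (m1.add m2).add m3
  obtain ⟨G₁, hG₁, r⟩ := (bdd_Hk (m := m)).rep hPm mA
  -- the representation
  have hrep : ∀ ψ, IsTest P ψ → ∫ p in P, (p.2 ^ m * F p) * ψ p =
      ∫ p in P, ((p.2 ^ m * (1 - χ p)) * F p - G₁ p) * ψ p := by
    intro ψ hψ
    have hΦ : IsTest P (fun p => χ p * Hk m ψ p) := test_cut_k hψ hχs hχ34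
    have hcs : ContDiff ℝ ∞ (fun p : E => conj p.2 * p.2 ^ m) :=
      (((Complex.conjCLE : ℂ →L[ℝ] ℂ).comp q2).contDiff).mul (contDiff_snd.pow m)
    have ha1 : IsTest P (fun p => p.2 ^ (m + 1) * (χ p * Hk m ψ p)) := hΦ.mul (contDiff_snd.pow _)
    have ha2 : IsTest P (fun p => (conj p.2 * p.2 ^ m) * (χ p * Hk m ψ p)) := hΦ.mul hcs
    have hw1 := wV _ ha1
    have hw2 := wW _ ha2
    have hχψ : IsTest P (fun p => χ p * ψ p) := hψ.mul hχs
    have hχψm : IsTest P (fun p => p.2 ^ m * (χ p * ψ p)) := hχψ.mul (contDiff_snd.pow m)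
    have hψm : IsTest P (fun p => p.2 ^ m * ψ p) := hψ.mul (contDiff_snd.pow m)
    have hpt : ∀ p, D i2 (-1) (fun p => p.2 ^ (m + 1) * (χ p * Hk m ψ p)) p +
        D i2 1 (fun p => (conj p.2 * p.2 ^ m) * (χ p * Hk m ψ p)) p =
        p.2 ^ m * (χ p * ψ p) + (p.2 ^ m * e p) * Hk m ψ p := by
      intro p
      have hd1 : DifferentiableAt ℝ χ p := hχs.differentiable (by simp) p
      have hd2 : DifferentiableAt ℝ (Hk m ψ) p := (Hk_smooth hψ.1).differentiable (by simp) p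
      rw [euler_k (m := m) (g := fun p => χ p * Hk m ψ p) (hχs.mul (Hk_smooth hψ.1)), fderiv_fun_mul hd1 hd2]
      simp only [add_apply, smul_apply, smul_eq_mul]
      have := Hk_euler (m := m) hψ.1 p
      rw [← this]
      simp only [he]
      ring
    have iA : Integrable (fun p => A p * Hk m ψ p) (volume.restrict P) := mA.integrable_mul (bdd_Hk.memLp hψ)
    have i1' := hF.int (ha1.D i2 (-1))
    have i2' := hF.int (ha2.D i2 1)
    have i3 : Integrable (fun p => ((p.2 ^ m * e p) * F p) * Hk m ψ p) (volume.restrict P) :=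
      m3.integrable_mul (bdd_Hk.memLp hψ)
    have i4 : Integrable (fun p => ((p.2 ^ (m + 1) * χ p) * V p) * Hk m ψ p) (volume.restrict P) :=
      m1.integrable_mul (bdd_Hk.memLp hψ)
    have i5 : Integrable (fun p => (((conj p.2 * p.2 ^ m) * χ p) * W p) * Hk m ψ p) (volume.restrict P) :=
      m2.integrable_mul (bdd_Hk.memLp hψ)
    have hkey : ∫ p in P, F p * (p.2 ^ m * (χ p * ψ p)) = - ∫ p in P, A p * Hk m ψ p := by
      have e1 : ∫ p in P, F p * (p.2 ^ m * (χ p * ψ p)) =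
          (∫ p in P, F p * D i2 (-1) (fun p => p.2 ^ (m + 1) * (χ p * Hk m ψ p)) p) +
          (∫ p in P, F p * D i2 1 (fun p => (conj p.2 * p.2 ^ m) * (χ p * Hk m ψ p)) p) -
          ∫ p in P, ((p.2 ^ m * e p) * F p) * Hk m ψ p := by
        have i12 : Integrable (fun p => F p * D i2 (-1) (fun p => p.2 ^ (m + 1) * (χ p * Hk m ψ p)) p +
          F p * D i2 1 (fun p => (conj p.2 * p.2 ^ m) * (χ p * Hk m ψ p)) p) (volume.restrict P) := i1'.add i2'
        rw [← integral_add i1' i2', ← integral_sub i12 i3]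
        congr 1
        funext p
        have := hpt p
        linear_combination (-F p) * this
      have e2 : ∫ p in P, A p * Hk m ψ p =
          (∫ p in P, V p * (p.2 ^ (m + 1) * (χ p * Hk m ψ p))) +
          (∫ p in P, W p * ((conj p.2 * p.2 ^ m) * (χ p * Hk m ψ p))) +
          ∫ p in P, ((p.2 ^ m * e p) * F p) * Hk m ψ p := by
        have a1 : ∫ p in P, V p * (p.2 ^ (m + 1) * (χ p * Hk m ψ p)) =
            ∫ p in P, ((p.2 ^ (m + 1) * χ p) * V p) * Hk m ψ p := by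
          congr 1; funext p; ring
        have a2 : ∫ p in P, W p * ((conj p.2 * p.2 ^ m) * (χ p * Hk m ψ p)) =
            ∫ p in P, (((conj p.2 * p.2 ^ m) * χ p) * W p) * Hk m ψ p := by
          congr 1; funext p; ring
        have i45 : Integrable (fun p => ((p.2 ^ (m + 1) * χ p) * V p) * Hk m ψ p +
          (((conj p.2 * p.2 ^ m) * χ p) * W p) * Hk m ψ p) (volume.restrict P) := i4.add i5
        rw [a1, a2, ← integral_add i4 i5, ← integral_add i45 i3]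
        congr 1
        funext p
        simp only [hA]
        ring
      rw [e1, e2, hw1, hw2]; ring
    have i6 : Integrable (fun p => ((p.2 ^ m * (1 - χ p)) * F p) * ψ p) (volume.restrict P) :=
      m4.integrable_mul (hψ.cc.memLp.restrict P)
    have i7 : Integrable (fun p => G₁ p * ψ p) (volume.restrict P) :=
      hG₁.integrable_mul (hψ.cc.memLp.restrict P)
    have e3 : ∫ p in P, (p.2 ^ m * F p) * ψ p = (∫ p in P, ((p.2 ^ m * (1 - χ p)) * F p) * ψ p) +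
        ∫ p in P, F p * (p.2 ^ m * (χ p * ψ p)) := by
      rw [← integral_add i6 (hF.int hχψm)]
      congr 1
      funext p
      ring
    have e4 : ∫ p in P, ((p.2 ^ m * (1 - χ p)) * F p - G₁ p) * ψ p =
        (∫ p in P, ((p.2 ^ m * (1 - χ p)) * F p) * ψ p) - ∫ p in P, G₁ p * ψ p := by
      rw [← integral_sub i6 i7]
      congr 1
      funext p
      ring
    rw [e3, e4, hkey, r ψ hψ]; ring
  have hmF : Wn 1 (fun p => p.2 ^ m * F p) := by
    apply hF.mul (m := fun p => p.2 ^ m) 1 (meas_pow m) 1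
    intro p _
    rw [norm_pow, one_mul, pow_one, ← pow_succ']
  have hR : MemLp (fun p => (p.2 ^ m * (1 - χ p)) * F p - G₁ p) 2 (volume.restrict P) := m4.sub hG₁
  have hae := ae_eq_of_test hmF (Wn.of_mem hR) hrep
  exact ⟨hF.1, hR.ae_eq hae.symm⟩

end Pool.Agent.KS6_3.HT
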