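import Mathlib
import Pool.Agent.KS6_3.HT.Wn

set_option autoImplicit false
open MeasureTheory Metric Set Filter Topology Complex
open scoped ContDiff ENNReal ComplexConjugate

namespace Pool.Agent.KS6_3.HT

open Pool.Agent.H807R3

theorem R_mul_snd (κ : ℝ → ℂ) (h : ℂ → ℂ) (φ : E → ℂ) (p : E) :
    R κ (fun q => h q.2 * φ q) p = h p.2 * R κ φ p := by
  unfold R
  rw [← intervalIntegral.integral_const_mul]
  congr 1
  funext t
  show κ t * (h (rot t p).2 * φ (rot t p)) = h p.2 * (κ t * φ (rot t p))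
  rw [rot_apply]
  ring

theorem D1_const_snd (c : ℂ) (n : ℕ) (p : E) : D i1 c (fun q : E => q.2 ^ n) p = 0 :=
  D1_hol (h := fun w => w ^ n) (hasDerivAt_pow n p.2) c

theorem conj_ee_smooth : ContDiff ℝ ∞ (fun t => conj (ee t)) :=
  (Complex.conjCLE : ℂ →L[ℝ] ℂ).contDiff.comp ee_smooth

theorem ee_mul_conj (t : ℝ) : ee t * conj (ee t) = 1 := by
  rw [Complex.mul_conj, Complex.normSq_eq_norm_sq, norm_ee]
  simp

theorem Dth_test {g : E → ℂ} (hg : IsTest P g) : IsTest P (Dth g) := by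
  have t1 : IsTest P (fun q => (2 * Real.pi * I * q.1) * g q) :=
    hg.mul (contDiff_const.mul contDiff_fst)
  have t2 : IsTest P (fun q => (-(2 * Real.pi * I) * conj q.1) * g q) := by
    apply hg.mul
    exact contDiff_const.mul (((Complex.conjCLE : ℂ →L[ℝ] ℂ).comp q1).contDiff)
  have : Dth g = D i1 (-1) (fun q => (2 * Real.pi * I * q.1) * g q) +
      D i1 1 (fun q => (-(2 * Real.pi * I) * conj q.1) * g q) := by
    funext p
    exact Dth_div (hg.1.differentiable (by simp) p)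
  rw [this]
  exact (t1.D i1 (-1)).add (t2.D i1 1)

/-- integrating against the angular derivative -/
theorem int_Dth {n : ℕ} {F Z : E → ℂ} (hF : Wn n F) (w1 : WD P i1 1 F (fun _ => 0))
    (w2 : WD P i1 (-1) F Z) {g : E → ℂ} (hg : IsTest P g) :
    ∫ p in P, F p * Dth g p = - ∫ p in P, Z p * ((2 * Real.pi * I * p.1) * g p) := by
  have t1 : IsTest P (fun q => (2 * Real.pi * I * q.1) * g q) :=
    hg.mul (contDiff_const.mul contDiff_fst)
  have t2 : IsTest P (fun q => (-(2 * Real.pi * I) * conj q.1) * g q) := by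
    apply hg.mul
    exact contDiff_const.mul (((Complex.conjCLE : ℂ →L[ℝ] ℂ).comp q1).contDiff)
  have e1 : ∫ p in P, F p * Dth g p = (∫ p in P, F p * D i1 (-1) (fun q => (2 * Real.pi * I * q.1) * g q) p) +
      ∫ p in P, F p * D i1 1 (fun q => (-(2 * Real.pi * I) * conj q.1) * g q) p := by
    rw [← integral_add (hF.int (t1.D i1 (-1))) (hF.int (t2.D i1 1))]
    congr 1
    funext p
    rw [Dth_div (hg.1.differentiable (by simp) p)]
    ring
  rw [e1, w1 _ t2, w2 _ t1]
  simp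

theorem null_fst : ∀ᵐ p : E ∂(volume.restrict P), p.1 ≠ 0 := by
  apply ae_restrict_of_ae
  rw [ae_iff]
  have hv : (volume : Measure E) = (volume : Measure ℂ).prod volume := rfl
  have : {a : E | ¬ a.1 ≠ 0} = {(0:ℂ)} ×ˢ (univ : Set ℂ) := by
    ext a
    simp
  rw [this, hv, Measure.prod_prod]
  simp

theorem split {m : ℕ} {f K X : E → ℂ} (hf : Wn m f) (hK : MemLp K 2 (volume.restrict P))
    (hX : MemLp X 2 (volume.restrict P)) (wK : WD P i1 1 f K) (wX : WD P i1 (-1) f X) :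
    ∃ N : E → ℂ, MemLp N 2 (volume.restrict P) ∧ WD P i1 1 N (fun _ => 0) ∧
      WD P i1 (-1) N (fun _ => 0) ∧
      MemLp (fun p => f p - (p.2 ^ m)⁻¹ * N p) 2 (volume.restrict P) := by
  obtain ⟨UK, hUK, rK⟩ := bdd_S1.rep mP hK
  obtain ⟨VK, hVK, sK⟩ := bdd_B1.rep mP hK
  have wU1 : WD P i1 1 UK (fun p => -K p) := by
    intro φ hφ
    rw [← rK _ (hφ.D i1 1)]
    have e1 : ∫ p in P, K p * S i1 (D i1 1 φ) p = ∫ p in P, K p * φ p := by
      apply setIntegral_congr_fun mP
      intro p hp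
      show K p * S i1 (D i1 1 φ) p = K p * φ p
      rw [S_D hφ.cc i1 q1 q1_i1 hφ.s1]
      have := hp.1; rw [q1_apply]; linarith
    rw [e1, ← integral_neg]
    congr 1
    funext p
    ring
  have wU2 : WD P i1 (-1) UK (fun p => -VK p) := by
    intro φ hφ
    rw [← rK _ (hφ.D i1 (-1)), sK φ hφ, ← integral_neg]
    congr 1
    funext p
    ring
  set H : E → ℂ := fun p => 1 * f p + 1 * UK p with hH
  set Z : E → ℂ := fun p => 1 * X p + 1 * (-VK p) with hZ
  have hHn : Wn m H := by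
    have := hf.add (Wn.of_mem (n := m) hUK)
    refine this.congr (ae_of_all _ fun p => ?_)
    simp only [hH]; ring
  have mZ : MemLp Z 2 (volume.restrict P) := (hX.const_mul 1).add (hVK.neg.const_mul 1)
  have wH1 : WD P i1 1 H (fun _ => 0) := by
    have := wK.lin 1 1 wU1 hf (Wn.of_mem (n := 0) hUK) (Wn.of_mem (n := 0) hK) (Wn.of_mem (n := 0) hK.neg)
    refine this.congr (ae_of_all _ fun p => rfl) (ae_of_all _ fun p => ?_)
    ring
  have wH2 : WD P i1 (-1) H Z :=
    wX.lin 1 1 wU2 hf (Wn.of_mem (n := 0) hUK) (Wn.of_mem (n := 0) hX) (Wn.of_mem (n := 0) hVK.neg)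
  -- the average
  have h1s : ContDiff ℝ ∞ (fun _ : ℝ => (1:ℂ)) := contDiff_const
  obtain ⟨N, hN, rN⟩ := (bdd_R h1s).rep mP hHn.2
  set M : E → ℂ := fun p => (p.2 ^ m)⁻¹ * N p with hMd
  have hinvm : AEStronglyMeasurable (fun p : E => (p.2 ^ m)⁻¹) (volume.restrict P) :=
    (measurable_snd.pow_const m).inv.aestronglyMeasurable
  have hMn : Wn m M := by
    apply (Wn_zero.2 hN).mul m hinvm 1
    intro p hp
    rw [norm_inv, norm_pow, mul_inv_cancel₀ (pow_ne_zero _ hp.2.1.ne')]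
    simp
  have hM : ∀ φ, IsTest P φ → ∫ p in P, M p * φ p = ∫ p in P, H p * R (fun _ => 1) φ p := by
    intro φ hφ
    have t1 : IsTest P (fun p => (p.2 ^ m)⁻¹ * φ p) := by
      apply hφ.mulOn (m := fun p => (p.2 ^ m)⁻¹)
      intro p hp
      exact (contDiffAt_snd.pow m).inv (pow_ne_zero _ (ne_of_P hp))
    have e1 : ∫ p in P, M p * φ p = ∫ p in P, N p * ((p.2 ^ m)⁻¹ * φ p) := by
      congr 1; funext p; simp only [hMd]; ring
    rw [e1, ← rN _ t1]
    apply setIntegral_congr_fun mP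
    intro p hp
    show (p.2 ^ m * H p) * R (fun _ => 1) (fun p => (p.2 ^ m)⁻¹ * φ p) p = H p * R (fun _ => 1) φ p
    rw [R_mul_snd _ (fun w => (w ^ m)⁻¹)]
    have := pow_ne_zero m (ne_of_P hp)
    field_simp
  have wM1 : WD P i1 1 M (fun _ => 0) := by
    intro φ hφ
    rw [hM _ (hφ.D i1 1)]
    have e1 : ∀ p, R (fun _ => 1) (D i1 1 φ) p = D i1 1 (R ee φ) p := by
      intro p
      rw [D1_R ee_smooth (Or.inl rfl) hφ.cc]
      congr 1
      funext t
      rw [cj_one, ee_mul_conj]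
    simp_rw [e1]
    rw [wH1 _ (R_test ee_smooth hφ)]
    simp
  obtain ⟨Z', hZ', rZ'⟩ := (bdd_R conj_ee_smooth).rep mP mZ
  have wM2 : WD P i1 (-1) M Z' := by
    intro φ hφ
    rw [hM _ (hφ.D i1 (-1))]
    have e1 : ∀ p, R (fun _ => 1) (D i1 (-1) φ) p = D i1 (-1) (R (fun t => conj (ee t)) φ) p := by
      intro p
      rw [D1_R conj_ee_smooth (Or.inr rfl) hφ.cc]
      congr 1
      funext t
      rw [cj_neg_one, mul_comm, ee_mul_conj]
    simp_rw [e1]
    rw [wH2 _ (R_test conj_ee_smooth hφ), rZ' φ hφ]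
  have hZ0 : ∀ᵐ p ∂(volume.restrict P), Z' p = 0 := by
    have hz : Wn 0 (fun p : E => (2 * Real.pi * I * p.1) * Z' p) := by
      apply (Wn_zero.2 hZ').mul 0 (by fun_prop) ‖(2 * Real.pi * I : ℂ)‖
      intro p hp
      rw [pow_zero, one_mul, mul_one, norm_mul]
      exact mul_le_of_le_one_right (norm_nonneg _) hp.1.le
    have := ae_zero_of_test hz (by
      intro g hg
      have h1 := int_Dth hMn wM1 wM2 hg
      rw [hM _ (Dth_test hg)] at h1
      have e0 : ∀ p, R (fun _ => 1) (Dth g) p = 0 := R_Dth hg.1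
      simp_rw [e0] at h1
      have e2 : ∫ p in P, ((2 * Real.pi * I * p.1) * Z' p) * g p =
          ∫ p in P, Z' p * ((2 * Real.pi * I * p.1) * g p) := by
        congr 1; funext p; ring
      rw [e2]
      simp only [mul_zero, integral_zero] at h1
      exact neg_eq_zero.1 h1.symm)
    filter_upwards [this, null_fst] with p hp hp1
    have hpi : (Real.pi : ℂ) ≠ 0 := by exact_mod_cast Real.pi_ne_zero
    have h2 : (2 * Real.pi * I * p.1 : ℂ) ≠ 0 :=
      mul_ne_zero (mul_ne_zero (mul_ne_zero two_ne_zero hpi) I_ne_zero) hp1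
    exact (mul_eq_zero.1 hp).resolve_left h2
  have wM2' : WD P i1 (-1) M (fun _ => 0) := wM2.congr (ae_of_all _ fun _ => rfl) hZ0
  -- `N`
  have hNM : ∀ᵐ p ∂(volume.restrict P), p.2 ^ m * M p = N p := by
    filter_upwards [ae_restrict_mem mP] with p hp
    have := pow_ne_zero m (ne_of_P hp)
    simp only [hMd]
    field_simp
  have hz0 : Wn 0 (fun _ : E => (0:ℂ)) := Wn_zero.2 (MemLp.zero)
  have wN : ∀ c : ℂ, WD P i1 c M (fun _ => 0) → WD P i1 c N (fun _ => 0) := by
    intro c hw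
    have := hw.smul hMn hz0 (m := fun p => p.2 ^ m) (m' := fun _ => 0) (SmP.of (contDiff_snd.pow m))
      (fun p _ => D1_const_snd c m p)
    exact this.congr hNM (ae_of_all _ fun p => by ring)
  refine ⟨N, hN, wN 1 wM1, wN (-1) wM2', ?_⟩
  -- `H - M`
  have hζZ : MemLp (fun p : E => (-(2 * Real.pi * I * p.1)) * Z p) 2 (volume.restrict P) := by
    have : Wn 0 (fun p : E => (-(2 * Real.pi * I * p.1)) * Z p) := by
      apply (Wn_zero.2 mZ).mul 0 (by fun_prop) ‖(2 * Real.pi * I : ℂ)‖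
      intro p hp
      rw [pow_zero, one_mul, mul_one, norm_neg, norm_mul]
      exact mul_le_of_le_one_right (norm_nonneg _) hp.1.le
    exact Wn_zero.1 this
  obtain ⟨G, hG, rG⟩ := (bdd_R kap_smooth).rep mP hζZ
  have hHM : (fun p => H p - M p) =ᵐ[volume.restrict P] G := by
    apply ae_eq_of_test (hHn.sub hMn) (Wn.of_mem hG)
    intro φ hφ
    have tR := R_test (κ := fun _ => 1) h1s hφ
    have tK := R_test kap_smooth hφ
    have e1 : ∫ p in P, (H p - M p) * φ p = ∫ p in P, H p * Dth (R kap φ) p := by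
      have e2 : ∫ p in P, (H p - M p) * φ p = (∫ p in P, H p * φ p) - ∫ p in P, M p * φ p := by
        rw [← integral_sub (hHn.int hφ) (hMn.int hφ)]
        congr 1; funext p; ring
      rw [e2, hM φ hφ, ← integral_sub (hHn.int hφ) (hHn.int tR)]
      congr 1
      funext p
      rw [Dth_R hφ.cc]
      ring
    rw [e1, int_Dth hHn wH1 wH2 tK, ← rG φ hφ, ← integral_neg]
    congr 1
    funext p
    ring
  refine (hG.sub hUK).ae_eq ?_
  filter_upwards [hHM] with p hp
  simp only [Pi.sub_apply]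
  rw [← hp]
  simp only [hH, hMd]
  ring

end Pool.Agent.KS6_3.HT
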