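import Mathlib
import Pool.Agent.KS6_3.HT.Wn

set_option autoImplicit false
open MeasureTheory Metric Set Filter Topology Complex
open scoped ContDiff ENNReal ComplexConjugate

namespace Pool.Agent.KS6_3.HT

open Pool.Agent.H807R3 hiding T Ph Ps isOpen_T Ph_mem T_ne Ph_Ps Ps_Ph Ps_mem meas_Ph meas_Ps lintegral_T nu
  meas_dens mp_Ph nu_ac ac_nu mp_Ps WL_iff WL_of_T memLp_of_WL int_T smooth_Ph smoothAt_Ps test_Ph test_Ps
  Ps_Ph_test fderiv_Ph chain1 chain2 star1 star2 fwd1 fwd2 bwd closed_P aesm_mul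

/-- the thin Hartogs triangle `|z| < |w| ^ (m + 1) < 1` -/
def T (m : ℕ) : Set E := {p | ‖p.1‖ < ‖p.2‖ ^ (m + 1) ∧ ‖p.2‖ < 1}

def Ph (m : ℕ) (p : E) : E := (p.2 ^ (m + 1) * p.1, p.2)
noncomputable def Ps (m : ℕ) (p : E) : E := (p.1 / p.2 ^ (m + 1), p.2)

variable {m : ℕ}

theorem isOpen_T : IsOpen (T m) := by
  have h1 : IsOpen {p : E | ‖p.1‖ < ‖p.2‖ ^ (m + 1)} := isOpen_lt (by fun_prop) (by fun_prop)
  have h3 : IsOpen {p : E | ‖p.2‖ < 1} := isOpen_lt (by fun_prop) continuous_const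
  exact h1.inter h3

theorem Ph_mem {p : E} : Ph m p ∈ T m ↔ p ∈ P := by
  unfold Ph T P
  show (‖p.2 ^ (m + 1) * p.1‖ < ‖p.2‖ ^ (m + 1) ∧ ‖p.2‖ < 1) ↔ (‖p.1‖ < 1 ∧ 0 < ‖p.2‖ ∧ ‖p.2‖ < 1)
  rw [norm_mul, norm_pow]
  constructor
  · rintro ⟨h1, h2⟩
    have h00 : 0 < ‖p.2‖ ^ (m + 1) := by
      have := mul_nonneg (pow_nonneg (norm_nonneg p.2) (m + 1)) (norm_nonneg p.1)
      linarith
    have h0 : 0 < ‖p.2‖ := by
      rcases (norm_nonneg p.2).lt_or_eq with h | h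
      · exact h
      · rw [← h] at h00
        simp at h00
    exact ⟨by nlinarith, h0, h2⟩
  · rintro ⟨h1, h2, h3⟩
    have h00 : 0 < ‖p.2‖ ^ (m + 1) := pow_pos h2 _
    exact ⟨by nlinarith, h3⟩

theorem T_ne {p : E} (hp : p ∈ T m) : p.2 ≠ 0 := by
  have h1 : ‖p.1‖ < ‖p.2‖ ^ (m + 1) := hp.1
  intro h
  rw [h, norm_zero] at h1
  simp only [ne_eq, Nat.add_eq_zero_iff, one_ne_zero, and_false, not_false_eq_true, zero_pow] at h1
  exact absurd h1 (not_lt.2 (norm_nonneg _))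

theorem Ph_Ps {p : E} (hp : p.2 ≠ 0) : Ph m (Ps m p) = p := by
  unfold Ph Ps
  apply Prod.ext
  · show p.2 ^ (m + 1) * (p.1 / p.2 ^ (m + 1)) = p.1
    field_simp
  · rfl

theorem Ps_Ph {p : E} (hp : p.2 ≠ 0) : Ps m (Ph m p) = p := by
  unfold Ph Ps
  apply Prod.ext
  · show p.2 ^ (m + 1) * p.1 / p.2 ^ (m + 1) = p.1
    field_simp
  · rfl

theorem Ps_mem {p : E} (hp : p.2 ≠ 0) : Ps m p ∈ P ↔ p ∈ T m := by
  rw [← Ph_mem (m := m), Ph_Ps hp]

theorem meas_Ph : Measurable (Ph m) := by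
  unfold Ph
  fun_prop

theorem meas_Ps : Measurable (Ps m) := by
  unfold Ps
  fun_prop

theorem lintegral_T (g : E → ℝ≥0∞) (hg : Measurable g) :
    ∫⁻ p in T m, g p = ∫⁻ p in P, ENNReal.ofReal (‖p.2‖ ^ (2 * (m + 1))) * g (Ph m p) := by
  have hTm := (isOpen_T (m := m)).measurableSet
  have hPm := isOpen_P.measurableSet
  rw [← lintegral_indicator hTm, ← lintegral_indicator hPm]
  have hv : (volume : Measure E) = (volume : Measure ℂ).prod volume := rfl
  have m1 : Measurable ((T m).indicator g) := hg.indicator hTm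
  have m2 : Measurable (P.indicator fun p => ENNReal.ofReal (‖p.2‖ ^ (2 * (m + 1))) * g (Ph m p)) := by
    apply Measurable.indicator _ hPm
    have a1 : Measurable (fun p : E => ENNReal.ofReal (‖p.2‖ ^ (2 * (m + 1)))) := by fun_prop
    have a2 : Measurable (fun p : E => g (Ph m p)) := hg.comp meas_Ph
    exact a1.mul a2
  rw [hv, lintegral_prod_symm _ m1.aemeasurable, lintegral_prod_symm _ m2.aemeasurable]
  congr 1; funext w
  by_cases hw : w = 0
  · have e1 : ∀ z, (T m).indicator g (z, w) = 0 := by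
      intro z
      apply indicator_of_notMem
      intro hz
      exact T_ne hz hw
    have e2 : ∀ z, P.indicator (fun p => ENNReal.ofReal (‖p.2‖ ^ (2 * (m + 1))) * g (Ph m p)) (z, w) = 0 := by
      intro z
      apply indicator_of_notMem
      intro hz
      exact ne_of_P hz hw
    simp_rw [e1, e2]
  · have m3 : Measurable (fun z => (T m).indicator g (z, w)) := m1.comp (by fun_prop)
    rw [lintegral_cscale _ m3 (pow_ne_zero (m + 1) hw), ← lintegral_const_mul]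
    · congr 1; funext z
      by_cases hz : ((z, w) : E) ∈ P
      · have hz' : ((w ^ (m + 1) * z, w) : E) ∈ T m := Ph_mem.2 hz
        rw [indicator_of_mem hz, indicator_of_mem hz']
        show _ = ENNReal.ofReal (‖w‖ ^ (2 * (m + 1))) * g (w ^ (m + 1) * z, w)
        rw [norm_pow, ← pow_mul, mul_comm (m + 1) 2]
      · have hz' : ((w ^ (m + 1) * z, w) : E) ∉ T m := fun h => hz (Ph_mem.1 h)
        rw [indicator_of_notMem hz, indicator_of_notMem hz', mul_zero]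
    · exact m3.comp (by fun_prop)

noncomputable def nu (m : ℕ) : Measure E :=
  (volume.restrict P).withDensity (fun p => ENNReal.ofReal (‖p.2‖ ^ (2 * (m + 1))))

theorem meas_dens : Measurable (fun p : E => ENNReal.ofReal (‖p.2‖ ^ (2 * (m + 1)))) := by fun_prop

theorem mp_Ph : MeasurePreserving (Ph m) (nu m) (volume.restrict (T m)) := by
  refine ⟨meas_Ph, ?_⟩
  ext s hs
  rw [Measure.map_apply meas_Ph hs, nu, withDensity_apply _ (meas_Ph hs)]
  have h1 := lintegral_T (m := m) (s.indicator 1) (measurable_one.indicator hs)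
  rw [lintegral_indicator_one hs] at h1
  rw [h1, ← lintegral_indicator (meas_Ph hs)]
  congr 1; funext p
  by_cases hp : Ph m p ∈ s
  · rw [indicator_of_mem (s := Ph m ⁻¹' s) hp, indicator_of_mem hp, Pi.one_apply, mul_one]
  · rw [indicator_of_notMem (s := Ph m ⁻¹' s) hp, indicator_of_notMem hp, mul_zero]

theorem nu_ac : nu m ≪ volume.restrict P := withDensity_absolutelyContinuous _ _

theorem ac_nu : volume.restrict P ≪ nu m := by
  apply withDensity_absolutelyContinuous' meas_dens.aemeasurable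
  filter_upwards [ae_restrict_mem isOpen_P.measurableSet] with p hp
  have := hp.2.1
  simp only [ne_eq, ENNReal.ofReal_eq_zero, not_le]
  positivity

theorem mp_Ps : MeasurePreserving (Ps m) (volume.restrict (T m)) (nu m) := by
  refine ⟨meas_Ps, ?_⟩
  rw [← mp_Ph.map_eq, Measure.map_map meas_Ps meas_Ph]
  have : Ps m ∘ Ph m =ᵐ[nu m] id := by
    apply nu_ac.ae_le
    filter_upwards [ae_restrict_mem isOpen_P.measurableSet] with p hp
    exact Ps_Ph (ne_of_P hp)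
  rw [Measure.map_congr this, Measure.map_id]

theorem Wn_iff {F : E → ℂ} : Wn (m + 1) F ↔ MemLp F 2 (nu m) := by
  have key : AEStronglyMeasurable F (volume.restrict P) →
      eLpNorm F 2 (nu m) = eLpNorm (fun p => p.2 ^ (m + 1) * F p) 2 (volume.restrict P) := by
    intro h
    rw [eLpNorm_eq_lintegral_rpow_enorm_toReal (by norm_num) (by norm_num),
      eLpNorm_eq_lintegral_rpow_enorm_toReal (by norm_num) (by norm_num)]
    simp only [ENNReal.toReal_ofNat]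
    congr 1
    unfold nu
    rw [lintegral_withDensity_eq_lintegral_mul₀ meas_dens.aemeasurable (h.enorm.pow_const _)]
    congr 1; funext p
    simp only [Pi.mul_apply]
    rw [enorm_mul, ENNReal.mul_rpow_of_nonneg _ _ (by norm_num)]
    congr 1
    rw [← ofReal_norm, ENNReal.ofReal_rpow_of_nonneg (norm_nonneg _) (by norm_num), Real.rpow_two,
      norm_pow, ← pow_mul, mul_comm (m + 1) 2]
  constructor
  · rintro ⟨h1, h2⟩
    exact ⟨h1.mono_ac nu_ac, by rw [key h1]; exact h2.2⟩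
  · rintro ⟨h1, h2⟩
    have h1' := h1.mono_ac ac_nu
    exact ⟨h1', (meas_pow _).mul h1', by rw [← key h1']; exact h2⟩

theorem Wn_of_T {f : E → ℂ} (hf : MemLp f 2 (volume.restrict (T m))) : Wn (m + 1) (fun p => f (Ph m p)) :=
  Wn_iff.2 (hf.comp_measurePreserving mp_Ph)

theorem memLp_of_Wn {F : E → ℂ} (hF : Wn (m + 1) F) : MemLp (fun p => F (Ps m p)) 2 (volume.restrict (T m)) :=
  (Wn_iff.1 hF).comp_measurePreserving mp_Ps

theorem int_T {f : E → ℂ} (hf : AEStronglyMeasurable f (volume.restrict (T m))) :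
    ∫ p in T m, f p = ∫ p in P, ((‖p.2‖ ^ (2 * (m + 1)) : ℝ) : ℂ) * f (Ph m p) := by
  have h1 : ∫ p in T m, f p = ∫ p, f (Ph m p) ∂(nu m) := by
    rw [← mp_Ph.map_eq] at hf ⊢
    exact integral_map meas_Ph.aemeasurable hf
  rw [h1]
  unfold nu
  rw [integral_withDensity_eq_integral_toReal_smul meas_dens (ae_of_all _ fun _ => ENNReal.ofReal_lt_top)]
  congr 1; funext p
  rw [ENNReal.toReal_ofReal (by positivity), Complex.real_smul]

/-! test functions -/

theorem smooth_Ph : ContDiff ℝ ∞ (Ph m) := by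
  unfold Ph
  exact ((contDiff_snd.pow _).mul contDiff_fst).prodMk contDiff_snd

theorem smoothAt_Ps {p : E} (hp : p.2 ≠ 0) : ContDiffAt ℝ ∞ (Ps m) p := by
  unfold Ps
  have h1 : ContDiffAt ℝ ∞ (fun p : E => (p.2 ^ (m + 1))⁻¹) p :=
    (contDiffAt_snd.pow _).inv (pow_ne_zero _ hp)
  have h2 : ContDiffAt ℝ ∞ (fun p : E => p.1 * (p.2 ^ (m + 1))⁻¹) p := contDiffAt_fst.mul h1
  exact h2.prodMk contDiffAt_snd

theorem test_Ph {φ : E → ℂ} (hφ : IsTest (T m) φ) : IsTest P (fun p => φ (Ph m p)) := by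
  have hK : IsCompact (Ps m '' tsupport φ) := by
    apply hφ.2.1.isCompact.image_of_continuousOn
    intro p hp
    exact (smoothAt_Ps (T_ne (hφ.2.2 hp))).continuousAt.continuousWithinAt
  have hsub : tsupport (fun p => φ (Ph m p)) ⊆ Ps m '' tsupport φ := by
    apply closure_minimal _ hK.isClosed
    intro p hp
    have h1 : Ph m p ∈ tsupport φ := subset_tsupport _ hp
    have h2 : p.2 ≠ 0 := T_ne (p := Ph m p) (hφ.2.2 h1)
    exact ⟨Ph m p, h1, Ps_Ph h2⟩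
  refine ⟨hφ.1.comp smooth_Ph, hK.of_isClosed_subset (isClosed_tsupport _) hsub, hsub.trans ?_⟩
  rintro _ ⟨q, hq, rfl⟩
  exact (Ps_mem (T_ne (hφ.2.2 hq))).2 (hφ.2.2 hq)

theorem test_Ps {η : E → ℂ} (hη : IsTest P η) : IsTest (T m) (fun p => η (Ps m p)) := by
  have hK : IsCompact (Ph m '' tsupport η) := hη.2.1.isCompact.image smooth_Ph.continuous
  have hsupp : Function.support (fun p => η (Ps m p)) ⊆ Ph m '' tsupport η := by
    intro p hp
    have h1 : Ps m p ∈ tsupport η := subset_tsupport _ hp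
    have h2 : p.2 ≠ 0 := ne_of_P (p := Ps m p) (hη.2.2 h1)
    exact ⟨Ps m p, h1, Ph_Ps h2⟩
  have hsub : tsupport (fun p => η (Ps m p)) ⊆ Ph m '' tsupport η := closure_minimal hsupp hK.isClosed
  have hKT : Ph m '' tsupport η ⊆ T m := by
    rintro _ ⟨q, hq, rfl⟩
    exact Ph_mem.2 (hη.2.2 hq)
  refine ⟨?_, hK.of_isClosed_subset (isClosed_tsupport _) hsub, hsub.trans hKT⟩
  rw [contDiff_iff_contDiffAt]
  intro p
  by_cases hp : p ∈ Ph m '' tsupport η
  · exact hη.1.contDiffAt.comp p (smoothAt_Ps (T_ne (hKT hp)))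
  · have hev : (fun p => η (Ps m p)) =ᶠ[𝓝 p] fun _ => 0 := by
      filter_upwards [hK.isClosed.isOpen_compl.mem_nhds hp] with q hq
      by_contra hne
      exact hq (hsupp hne)
    exact contDiffAt_const.congr_of_eventuallyEq hev

theorem Ps_Ph_test {η : E → ℂ} (hη : IsTest P η) (p : E) : η (Ps m (Ph m p)) = η p := by
  by_cases hp : p.2 = 0
  · have h1 : η p = 0 := by
      by_contra hne
      exact ne_of_P (hη.2.2 (subset_tsupport _ hne)) hp
    have h2 : η (Ps m (Ph m p)) = 0 := by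
      by_contra hne
      exact ne_of_P (hη.2.2 (subset_tsupport _ hne)) hp
    rw [h1, h2]
  · rw [Ps_Ph hp]

theorem fderiv_Ph {φ : E → ℂ} {p : E} (hφ : DifferentiableAt ℝ φ (Ph m p)) (a b : ℂ) :
    fderiv ℝ (fun q => φ (Ph m q)) p (a, b) =
      fderiv ℝ φ (Ph m p) (p.2 ^ (m + 1) * a + ((m + 1) * p.2 ^ m * p.1) * b, b) := by
  have h0 : HasFDerivAt (fun q : E => q.2 ^ (m + 1))
      (((m + 1) * p.2 ^ m : ℂ) • (ContinuousLinearMap.snd ℝ ℂ ℂ)) p := by
    have := (hasFDerivAt_snd (𝕜 := ℝ) (p := p)).pow (m + 1)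
    refine this.congr_fderiv ?_
    ext v <;> simp
  have h1 : HasFDerivAt (fun q : E => q.2 ^ (m + 1) * q.1)
      (p.2 ^ (m + 1) • (ContinuousLinearMap.fst ℝ ℂ ℂ) +
        p.1 • (((m + 1) * p.2 ^ m : ℂ) • (ContinuousLinearMap.snd ℝ ℂ ℂ))) p :=
    h0.mul (hasFDerivAt_fst (𝕜 := ℝ) (p := p))
  have h2 : HasFDerivAt (Ph m) ((p.2 ^ (m + 1) • (ContinuousLinearMap.fst ℝ ℂ ℂ) +
        p.1 • (((m + 1) * p.2 ^ m : ℂ) • (ContinuousLinearMap.snd ℝ ℂ ℂ))).prod
      (ContinuousLinearMap.snd ℝ ℂ ℂ)) p := h1.prodMk hasFDerivAt_snd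
  have h3 := hφ.hasFDerivAt.comp p h2
  have h4 : fderiv ℝ (fun q => φ (Ph m q)) p = _ := h3.fderiv
  rw [h4]
  simp only [ContinuousLinearMap.comp_apply, ContinuousLinearMap.prod_apply, add_apply, smul_apply,
    ContinuousLinearMap.coe_fst', ContinuousLinearMap.coe_snd', smul_eq_mul]
  congr 3
  ring

theorem chain1 {c : ℂ} (hc : c = 1 ∨ c = -1) {φ : E → ℂ} {p : E} (hφ : DifferentiableAt ℝ φ (Ph m p)) :
    D i1 c (fun q => φ (Ph m q)) p = cj c p.2 ^ (m + 1) * D i1 c φ (Ph m p) := by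
  unfold D
  rw [i1_apply, i1_apply, fderiv_Ph hφ, fderiv_Ph hφ, ← cj_pow hc]
  simp only [mul_zero, add_zero, mul_one]
  have := dir1 (hcc hc) (fderiv ℝ φ (Ph m p)) (p.2 ^ (m + 1))
  rw [this]
  ring

theorem chain2 {c : ℂ} (hc : c = 1 ∨ c = -1) {φ : E → ℂ} {p : E} (hφ : DifferentiableAt ℝ φ (Ph m p)) :
    D i2 c (fun q => φ (Ph m q)) p =
      ((m + 1) * cj c p.2 ^ m * cj c p.1) * D i1 c φ (Ph m p) + D i2 c φ (Ph m p) := by
  unfold D
  rw [i2_apply, i2_apply, fderiv_Ph hφ, fderiv_Ph hφ, i1_apply, i1_apply]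
  simp only [mul_zero, zero_add, mul_one]
  set L := fderiv ℝ φ (Ph m p)
  set β : ℂ := (m + 1) * p.2 ^ m * p.1 with hβ
  have e1 : L (β, 1) = L (β, 0) + L (0, 1) := by
    rw [← map_add]; simp
  have e2 : L (β * I, I) = L (β * I, 0) + L (0, I) := by
    rw [← map_add]; simp
  have e3 : cj c β = (m + 1) * cj c p.2 ^ m * cj c p.1 := by
    rw [hβ, cj_mul_mul hc, cj_mul_mul hc, cj_pow hc]
    congr 2
    rw [cj_apply]
    simp
  have := dir1 (hcc hc) L β
  rw [e1, e2, ← e3]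
  linear_combination this / 2

theorem norm_pow_cj {c : ℂ} (hc : c = 1 ∨ c = -1) (w : ℂ) (n : ℕ) :
    ((‖w‖ ^ (2 * n) : ℝ) : ℂ) = cj c w ^ n * cj (-c) w ^ n := by
  rw [← mul_pow, cj_mul (hcc hc), pow_mul]
  push_cast
  rfl

theorem D_pow {a : E → ℂ} {p : E} (ha : DifferentiableAt ℝ a p) (ι : ℂ →L[ℝ] E) (c : ℂ) (n : ℕ) :
    D ι c (fun q => a q ^ (n + 1)) p = (n + 1) * a p ^ n * D ι c a p := by
  induction n with
  | zero => simp
  | succ n ih =>
    have h1 : (fun q => a q ^ (n + 1 + 1)) = fun q => a q ^ (n + 1) * a q := by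
      funext q; rw [pow_succ]
    rw [h1, D_mul (ha.fun_pow _) ha, ih]
    push_cast
    ring

/-- powers of `cj (-c) w` are killed by `D · c` -/
theorem D_pow_neg {c : ℂ} (hc : c = 1 ∨ c = -1) (n : ℕ) (p : E) :
    D i2 c (fun q => cj (-c) q.2 ^ (n + 1)) p = 0 := by
  rw [D_pow (dcj2 _ _), D2_cj2]
  have h1 : c * -c = -1 := by linear_combination -(hcc hc)
  rw [h1]; ring

theorem D_pow_pos {c : ℂ} (hc : c = 1 ∨ c = -1) (n : ℕ) (p : E) :
    D i2 c (fun q => cj c q.2 ^ (n + 1)) p = (n + 1) * cj c p.2 ^ n := by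
  rw [D_pow (dcj2 _ _), D2_cj2, hcc hc]
  ring

theorem D1_pow (c c' : ℂ) (n : ℕ) (p : E) :
    D i1 c (fun q => cj c' q.2 ^ n) p = 0 := by
  rcases n with _ | n
  · unfold D
    simp
  · rw [D_pow (dcj2 _ _), D1_cj2]
    ring

theorem pcj2 (c : ℂ) (n : ℕ) : ContDiff ℝ ∞ (fun q : E => cj c q.2 ^ n) := (ccj2 c).pow n

theorem dpcj2 (c : ℂ) (n : ℕ) (p : E) : DifferentiableAt ℝ (fun q : E => cj c q.2 ^ n) p :=
  (pcj2 c n).differentiable (by simp) p

/-- (★1) -/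
theorem star1 {c : ℂ} (hc : c = 1 ∨ c = -1) {φ : E → ℂ} (hφ : Differentiable ℝ φ) (p : E) :
    ((‖p.2‖ ^ (2 * (m + 1)) : ℝ) : ℂ) * D i1 c φ (Ph m p) =
      D i1 c (fun q => cj (-c) q.2 ^ (m + 1) * φ (Ph m q)) p := by
  have hd : DifferentiableAt ℝ (fun q => φ (Ph m q)) p :=
    (hφ _).comp p (smooth_Ph.differentiable (by simp) p)
  rw [D_mul (dpcj2 _ _ _) hd, D1_pow, chain1 hc (hφ _), norm_pow_cj hc]
  ring

/-- (★2) -/
theorem star2 {c : ℂ} (hc : c = 1 ∨ c = -1) {φ : E → ℂ} (hφ : Differentiable ℝ φ) (p : E) :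
    ((‖p.2‖ ^ (2 * (m + 1)) : ℝ) : ℂ) * D i2 c φ (Ph m p) =
      D i2 c (fun q => (cj c q.2 ^ (m + 1) * cj (-c) q.2 ^ (m + 1)) * φ (Ph m q)) p -
      D i1 c (fun q => ((m + 1) * (cj (-c) q.2 ^ (m + 1) * cj c q.2 ^ m) * cj c q.1) * φ (Ph m q)) p := by
  have hd : DifferentiableAt ℝ (fun q => φ (Ph m q)) p :=
    (hφ _).comp p (smooth_Ph.differentiable (by simp) p)
  have d1 : DifferentiableAt ℝ (fun q : E => ((m + 1 : ℂ) * (cj (-c) q.2 ^ (m + 1) * cj c q.2 ^ m))) p :=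
    (((pcj2 (-c) (m + 1)).mul (pcj2 c m)).const_smul (m + 1 : ℂ)).differentiable (by simp) p
  have e0 : D i1 c (fun q : E => ((m + 1 : ℂ) * (cj (-c) q.2 ^ (m + 1) * cj c q.2 ^ m))) p = 0 := by
    have hκ : Differentiable ℝ (fun w : ℂ => ((m + 1 : ℂ) * (cj (-c) w ^ (m + 1) * cj c w ^ m))) :=
      (((cj (-c)).differentiable.fun_pow _).fun_mul ((cj c).differentiable.fun_pow _)).const_mul _
    exact D_comp_zero (κ := fun w : ℂ => ((m + 1 : ℂ) * (cj (-c) w ^ (m + 1) * cj c w ^ m))) q2_i1 hκ c p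
  rw [D_mul (a := fun q : E => cj c q.2 ^ (m + 1) * cj (-c) q.2 ^ (m + 1))
      ((dpcj2 _ _ _).mul (dpcj2 _ _ _)) hd,
    D_mul (a := fun q : E => (m + 1 : ℂ) * (cj (-c) q.2 ^ (m + 1) * cj c q.2 ^ m) * cj c q.1)
      (d1.mul (dcj1 _ _)) hd,
    D_mul (dpcj2 _ _ _) (dpcj2 _ _ _), D_mul d1 (dcj1 _ _), e0, D_pow_neg hc, D_pow_pos hc, D1_cj1,
    chain1 hc (hφ _), chain2 hc (hφ _), norm_pow_cj hc, hcc hc]
  ring

end Pool.Agent.KS6_3.HT
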