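import Mathlib
import Pool.Agent.KS6_3.HT.Tk

set_option autoImplicit false
open MeasureTheory Metric Set Filter Topology Complex
open scoped ContDiff ENNReal ComplexConjugate

namespace Pool.Agent.KS6_3.HT

open Pool.Agent.H807R3 hiding T Ph Ps isOpen_T Ph_mem T_ne Ph_Ps Ps_Ph Ps_mem meas_Ph meas_Ps lintegral_T nu
  meas_dens mp_Ph nu_ac ac_nu mp_Ps WL_iff WL_of_T memLp_of_WL int_T smooth_Ph smoothAt_Ps test_Ph test_Ps
  Ps_Ph_test fderiv_Ph chain1 chain2 star1 star2 fwd1 fwd2 bwd closed_P aesm_mul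

variable {m : ℕ}

theorem aesm_mul {f φ : E → ℂ} (hf : MemLp f 2 (volume.restrict (T m))) (hφ : IsTest (T m) φ) :
    AEStronglyMeasurable (fun p => f p * φ p) (volume.restrict (T m)) :=
  hf.1.mul hφ.1.continuous.aestronglyMeasurable

theorem fwd1 {c : ℂ} (hc : c = 1 ∨ c = -1) {f A : E → ℂ} (hf : MemLp f 2 (volume.restrict (T m)))
    (hA : MemLp A 2 (volume.restrict (T m))) (wA : WD (T m) i1 c f A) :
    WD P i1 c (fun p => f (Ph m p)) (fun p => cj c p.2 ^ (m + 1) * A (Ph m p)) := by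
  intro ψ hψ
  have hc2 := hcc hc
  have hcn2 := hcc (hcn hc)
  obtain ⟨hη, hηe⟩ := div_test hψ (pcj2 (-c) (m + 1)) (fun p hp => pow_ne_zero _ (cj_ne hcn2 (ne_of_P hp)))
  set η : E → ℂ := fun p => (cj (-c) p.2 ^ (m + 1))⁻¹ * ψ p with hηd
  have hφ := test_Ps (m := m) hη
  set φ : E → ℂ := fun p => η (Ps m p) with hφd
  have hcomp : ∀ p, φ (Ph m p) = η p := Ps_Ph_test hη
  have key : ∀ p, ((‖p.2‖ ^ (2 * (m + 1)) : ℝ) : ℂ) * D i1 c φ (Ph m p) = D i1 c ψ p := by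
    intro p
    rw [star1 hc (hφ.1.differentiable (by simp)) p]
    congr 1
    funext q
    rw [hcomp]
    exact hηe q
  have e1 : ∫ p in P, f (Ph m p) * D i1 c ψ p = ∫ p in T m, f p * D i1 c φ p := by
    rw [int_T (aesm_mul hf (hφ.D i1 c))]
    congr 1
    funext p
    rw [← key p]; ring
  have e2 : ∫ p in P, (cj c p.2 ^ (m + 1) * A (Ph m p)) * ψ p = ∫ p in T m, A p * φ p := by
    rw [int_T (aesm_mul hA hφ)]
    congr 1
    funext p
    rw [hcomp, ← hηe p, norm_pow_cj hc]; ring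
  rw [e1, e2]
  exact wA φ hφ

theorem fwd2 {c : ℂ} (hc : c = 1 ∨ c = -1) {f A C : E → ℂ} (hf : MemLp f 2 (volume.restrict (T m)))
    (hA : MemLp A 2 (volume.restrict (T m))) (hC : MemLp C 2 (volume.restrict (T m)))
    (wA : WD (T m) i1 c f A) (wC : WD (T m) i2 c f C) :
    WD P i2 c (fun p => f (Ph m p))
      (fun p => C (Ph m p) + ((m + 1) * cj c p.2 ^ m * cj c p.1) * A (Ph m p)) := by
  intro ψ hψ
  have hc2 := hcc hc
  have hcn2 := hcc (hcn hc)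
  obtain ⟨hη, hηe⟩ := div_test (m := fun p => cj c p.2 ^ (m + 1) * cj (-c) p.2 ^ (m + 1)) hψ
    ((pcj2 c _).mul (pcj2 (-c) _))
    (fun p hp => mul_ne_zero (pow_ne_zero _ (cj_ne hc2 (ne_of_P hp)))
      (pow_ne_zero _ (cj_ne hcn2 (ne_of_P hp))))
  set η : E → ℂ := fun p => (cj c p.2 ^ (m + 1) * cj (-c) p.2 ^ (m + 1))⁻¹ * ψ p with hηd
  have hφ := test_Ps (m := m) hη
  set φ : E → ℂ := fun p => η (Ps m p) with hφd
  have hcomp : ∀ p, φ (Ph m p) = η p := Ps_Ph_test hη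
  have hsm : ContDiff ℝ ∞ (fun q : E => (m + 1 : ℂ) * (cj (-c) q.2 ^ (m + 1) * cj c q.2 ^ m) * cj c q.1) :=
    (contDiff_const.mul ((pcj2 (-c) _).mul (pcj2 c _))).mul (ccj1 c)
  have hθ : IsTest P (fun q => ((m + 1 : ℂ) * (cj (-c) q.2 ^ (m + 1) * cj c q.2 ^ m) * cj c q.1) * η q) :=
    hη.mul hsm
  set θ : E → ℂ := fun q => ((m + 1 : ℂ) * (cj (-c) q.2 ^ (m + 1) * cj c q.2 ^ m) * cj c q.1) * η q with hθd
  have key : ∀ p, ((‖p.2‖ ^ (2 * (m + 1)) : ℝ) : ℂ) * D i2 c φ (Ph m p) = D i2 c ψ p - D i1 c θ p := by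
    intro p
    rw [star2 hc (hφ.1.differentiable (by simp)) p]
    simp_rw [hcomp]
    congr 2
    funext q
    exact hηe q
  have hF : Wn (m + 1) (fun p => f (Ph m p)) := Wn_of_T hf
  have e1 : ∫ p in P, f (Ph m p) * D i2 c ψ p =
      (∫ p in T m, f p * D i2 c φ p) + ∫ p in P, f (Ph m p) * D i1 c θ p := by
    have i1' := hF.int (hψ.D i2 c)
    have i2' := hF.int (hθ.D i1 c)
    have e0 : ∫ p in T m, f p * D i2 c φ p =
        (∫ p in P, f (Ph m p) * D i2 c ψ p) - ∫ p in P, f (Ph m p) * D i1 c θ p := by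
      rw [int_T (aesm_mul hf (hφ.D i2 c)), ← integral_sub i1' i2']
      congr 1
      funext p
      have := key p
      linear_combination f (Ph m p) * this
    rw [e0]; ring
  have e2 : ∫ p in T m, C p * φ p = ∫ p in P, C (Ph m p) * ψ p := by
    rw [int_T (aesm_mul hC hφ)]
    congr 1
    funext p
    rw [hcomp, ← hηe p, norm_pow_cj hc]; ring
  have e3 := fwd1 hc hf hA wA θ hθ
  have e4 : ∫ p in P, (cj c p.2 ^ (m + 1) * A (Ph m p)) * θ p =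
      ∫ p in P, (((m + 1) * cj c p.2 ^ m * cj c p.1) * A (Ph m p)) * ψ p := by
    congr 1
    funext p
    rw [← hηe p, hθd]; ring
  have hAP : Wn (m + 1) (fun p => A (Ph m p)) := Wn_of_T hA
  have hCP : Wn (m + 1) (fun p => C (Ph m p)) := Wn_of_T hC
  have i5 := hCP.int hψ
  have i6 : Integrable (fun p => (((m + 1) * cj c p.2 ^ m * cj c p.1) * A (Ph m p)) * ψ p) (volume.restrict P) := by
    have := hAP.int (hψ.mul ((contDiff_const (c := (m + 1 : ℂ))).mul (pcj2 c m) |>.mul (ccj1 c)))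
    refine this.congr (ae_of_all _ (fun p => ?_))
    ring
  have e5 : ∫ p in P, (C (Ph m p) + ((m + 1) * cj c p.2 ^ m * cj c p.1) * A (Ph m p)) * ψ p =
      (∫ p in P, C (Ph m p) * ψ p) + ∫ p in P, (((m + 1) * cj c p.2 ^ m * cj c p.1) * A (Ph m p)) * ψ p := by
    rw [← integral_add i5 i6]
    congr 1
    funext p
    ring
  rw [e1, wC φ hφ, e2, e3, e4, e5]; ring

theorem meas_cjp (c : ℂ) (n : ℕ) : Measurable (fun p : E => cj c p.2 ^ n) := (meas_cj2 c).pow_const n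

theorem bwd {c : ℂ} (hc : c = 1 ∨ c = -1) {U X Y : E → ℂ} (hU : Wn (m + 1) U)
    (hX : MemLp X 2 (volume.restrict P)) (hY : Wn (m + 1) Y)
    (wX : WD P i1 c U X) (wY : WD P i2 c U Y) :
    Wn (m + 1) (fun p => (cj c p.2 ^ (m + 1))⁻¹ * X p) ∧
    Wn (m + 1) (fun p => Y p - ((m + 1) * cj c p.1 * (cj c p.2)⁻¹) * X p) ∧
    WD (T m) i1 c (fun p => U (Ps m p)) (fun p => (fun p => (cj c p.2 ^ (m + 1))⁻¹ * X p) (Ps m p)) ∧
    WD (T m) i2 c (fun p => U (Ps m p))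
      (fun p => (fun p => Y p - ((m + 1) * cj c p.1 * (cj c p.2)⁻¹) * X p) (Ps m p)) := by
  have hc2 := hcc hc
  have hcn2 := hcc (hcn hc)
  have hPm := isOpen_P.measurableSet
  have hX0 := Wn_zero.2 hX
  have b1 : Wn (m + 1) (fun p => (cj c p.2 ^ (m + 1))⁻¹ * X p) := by
    apply hX0.mul (m + 1) (m := fun p => (cj c p.2 ^ (m + 1))⁻¹) (meas_cjp c _).inv.aestronglyMeasurable 1
    intro p hp
    have := hp.2.1
    rw [norm_inv, norm_pow, norm_cj hc, mul_inv_cancel₀ (pow_ne_zero _ this.ne')]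
    simp
  have b2 : Wn (m + 1) (fun p => ((m + 1) * cj c p.1 * (cj c p.2)⁻¹) * X p) := by
    apply hX0.mul (m + 1) (m := fun p => (m + 1) * cj c p.1 * (cj c p.2)⁻¹)
      (((meas_cj1 c).const_mul _).mul (meas_cj2 c).inv).aestronglyMeasurable (m + 1)
    intro p hp
    have h1 := hp.2.1
    have h2 := hp.1
    have h3 : ‖(m + 1 : ℂ)‖ = m + 1 := by
      have : (m + 1 : ℂ) = ((m + 1 : ℝ) : ℂ) := by push_cast; rfl
      rw [this, Complex.norm_real, Real.norm_of_nonneg (by positivity)]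
    rw [norm_mul, norm_mul, norm_inv, norm_cj hc, norm_cj hc, h3, pow_zero, mul_one]
    have h4 : ‖p.2‖ ^ (m + 1) * ((m + 1) * ‖p.1‖ * ‖p.2‖⁻¹) = (m + 1) * (‖p.1‖ * ‖p.2‖ ^ m) := by
      rw [pow_succ]
      field_simp
    rw [h4]
    apply mul_le_of_le_one_right (by positivity)
    exact mul_le_one₀ h2.le (by positivity) (pow_le_one₀ h1.le hp.2.2.le)
  have b4 := hY.sub b2
  refine ⟨b1, b4, ?_, ?_⟩
  · intro φ hφ
    have hη := test_Ph hφ
    have hd := hφ.1.differentiable (by simp)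
    have hη2 : IsTest P (fun q => cj (-c) q.2 ^ (m + 1) * φ (Ph m q)) := hη.mul (pcj2 (-c) _)
    have e1 : ∫ p in T m, U (Ps m p) * D i1 c φ p =
        ∫ p in P, U p * D i1 c (fun q => cj (-c) q.2 ^ (m + 1) * φ (Ph m q)) p := by
      rw [int_T (aesm_mul (memLp_of_Wn hU) (hφ.D i1 c))]
      apply setIntegral_congr_fun hPm
      intro p hp
      show ((‖p.2‖ ^ (2 * (m + 1)) : ℝ) : ℂ) * (U (Ps m (Ph m p)) * D i1 c φ (Ph m p)) = _
      rw [Ps_Ph (ne_of_P hp)]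
      have := star1 (m := m) hc hd p
      linear_combination U p * this
    have e2 : ∫ p in T m, (fun p => (cj c p.2 ^ (m + 1))⁻¹ * X p) (Ps m p) * φ p =
        ∫ p in P, X p * (cj (-c) p.2 ^ (m + 1) * φ (Ph m p)) := by
      rw [int_T (aesm_mul (memLp_of_Wn b1) hφ)]
      apply setIntegral_congr_fun hPm
      intro p hp
      show ((‖p.2‖ ^ (2 * (m + 1)) : ℝ) : ℂ) * ((cj c (Ps m (Ph m p)).2 ^ (m + 1))⁻¹ * X (Ps m (Ph m p)) *
        φ (Ph m p)) = _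
      rw [Ps_Ph (ne_of_P hp), norm_pow_cj hc]
      have := pow_ne_zero (m + 1) (cj_ne hc2 (ne_of_P hp))
      field_simp
    rw [e1, e2]
    exact wX _ hη2
  · intro φ hφ
    have hη := test_Ph hφ
    have hd := hφ.1.differentiable (by simp)
    have hη2 : IsTest P (fun q => (cj c q.2 ^ (m + 1) * cj (-c) q.2 ^ (m + 1)) * φ (Ph m q)) :=
      hη.mul ((pcj2 c _).mul (pcj2 (-c) _))
    have hsm : ContDiff ℝ ∞ (fun q : E => (m + 1 : ℂ) * (cj (-c) q.2 ^ (m + 1) * cj c q.2 ^ m) * cj c q.1) :=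
      (contDiff_const.mul ((pcj2 (-c) _).mul (pcj2 c _))).mul (ccj1 c)
    have hη3 : IsTest P (fun q => ((m + 1 : ℂ) * (cj (-c) q.2 ^ (m + 1) * cj c q.2 ^ m) * cj c q.1) *
      φ (Ph m q)) := hη.mul hsm
    have e1 : ∫ p in T m, U (Ps m p) * D i2 c φ p =
        (∫ p in P, U p * D i2 c (fun q => (cj c q.2 ^ (m + 1) * cj (-c) q.2 ^ (m + 1)) * φ (Ph m q)) p) -
        ∫ p in P, U p * D i1 c (fun q => ((m + 1 : ℂ) * (cj (-c) q.2 ^ (m + 1) * cj c q.2 ^ m) * cj c q.1) *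
          φ (Ph m q)) p := by
      rw [int_T (aesm_mul (memLp_of_Wn hU) (hφ.D i2 c)), ← integral_sub (hU.int (hη2.D i2 c)) (hU.int (hη3.D i1 c))]
      apply setIntegral_congr_fun hPm
      intro p hp
      show ((‖p.2‖ ^ (2 * (m + 1)) : ℝ) : ℂ) * (U (Ps m (Ph m p)) * D i2 c φ (Ph m p)) = _
      rw [Ps_Ph (ne_of_P hp)]
      have := star2 (m := m) hc hd p
      linear_combination U p * this
    have e2 : ∫ p in T m, (fun p => Y p - ((m + 1) * cj c p.1 * (cj c p.2)⁻¹) * X p) (Ps m p) * φ p =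
        (∫ p in P, Y p * ((cj c p.2 ^ (m + 1) * cj (-c) p.2 ^ (m + 1)) * φ (Ph m p))) -
        ∫ p in P, X p * (((m + 1 : ℂ) * (cj (-c) p.2 ^ (m + 1) * cj c p.2 ^ m) * cj c p.1) * φ (Ph m p)) := by
      rw [int_T (aesm_mul (memLp_of_Wn b4) hφ), ← integral_sub (hY.int hη2) (hX0.int hη3)]
      apply setIntegral_congr_fun hPm
      intro p hp
      show ((‖p.2‖ ^ (2 * (m + 1)) : ℝ) : ℂ) * ((Y (Ps m (Ph m p)) -
        ((m + 1) * cj c (Ps m (Ph m p)).1 * (cj c (Ps m (Ph m p)).2)⁻¹) * X (Ps m (Ph m p))) * φ (Ph m p)) = _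
      rw [Ps_Ph (ne_of_P hp), norm_pow_cj hc]
      have := cj_ne hc2 (ne_of_P hp)
      field_simp
      ring
    have h1 := wY _ hη2
    have h2 := wX _ hη3
    rw [e1, e2, h1, h2]; ring

theorem closed_P {f1 f2 : E → ℂ} (hf1 : MemLp f1 2 (volume.restrict (T m)))
    (hf2 : MemLp f2 2 (volume.restrict (T m)))
    (h : ∀ φ, IsTest (T m) φ → ∫ p in T m, f1 p * D i2 1 φ p = ∫ p in T m, f2 p * D i1 1 φ p) :
    ∀ ψ, IsTest P ψ → ∫ p in P, (cj 1 p.2 ^ (m + 1) * f1 (Ph m p)) * D i2 1 ψ p =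
      ∫ p in P, (f2 (Ph m p) + ((m + 1) * cj 1 p.2 ^ m * cj 1 p.1) * f1 (Ph m p)) * D i1 1 ψ p := by
  intro ψ hψ
  have hc1 : (1:ℂ) = 1 ∨ (1:ℂ) = -1 := Or.inl rfl
  have hcn2 : (-1:ℂ) * -1 = 1 := by norm_num
  obtain ⟨hη, hηe⟩ := div_test hψ (pcj2 (-1) (m + 1)) (fun p hp => pow_ne_zero _ (cj_ne hcn2 (ne_of_P hp)))
  set η : E → ℂ := fun p => (cj (-1) p.2 ^ (m + 1))⁻¹ * ψ p with hηd
  have hφ := test_Ps (m := m) hη
  set φ : E → ℂ := fun p => η (Ps m p) with hφd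
  have hcomp : ∀ p, φ (Ph m p) = η p := Ps_Ph_test hη
  have hd := hφ.1.differentiable (by simp)
  have hdψ := hψ.1.differentiable (by simp)
  have key1 : ∀ p, ((‖p.2‖ ^ (2 * (m + 1)) : ℝ) : ℂ) * D i1 1 φ (Ph m p) = D i1 1 ψ p := by
    intro p
    rw [star1 hc1 hd p]
    congr 1
    funext q
    rw [hcomp]
    exact hηe q
  have key2 : ∀ p, ((‖p.2‖ ^ (2 * (m + 1)) : ℝ) : ℂ) * D i2 1 φ (Ph m p) =
      cj 1 p.2 ^ (m + 1) * D i2 1 ψ p - ((m + 1) * cj 1 p.2 ^ m * cj 1 p.1) * D i1 1 ψ p := by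
    intro p
    rw [star2 hc1 hd p]
    have a1 : (fun q => (cj 1 q.2 ^ (m + 1) * cj (-1) q.2 ^ (m + 1)) * φ (Ph m q)) =
        fun q => cj 1 q.2 ^ (m + 1) * ψ q := by
      funext q
      rw [hcomp, ← hηe q]; ring
    have a2 : (fun q => ((m + 1 : ℂ) * (cj (-1) q.2 ^ (m + 1) * cj 1 q.2 ^ m) * cj 1 q.1) * φ (Ph m q)) =
        fun q => (((m + 1 : ℂ) * cj 1 q.2 ^ m) * cj 1 q.1) * ψ q := by
      funext q
      rw [hcomp, ← hηe q]; ring
    have d1 : DifferentiableAt ℝ (fun q : E => ((m + 1 : ℂ) * cj 1 q.2 ^ m)) p := (dpcj2 _ _ _).const_mul _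
    have e0 : D i1 1 (fun q : E => ((m + 1 : ℂ) * cj 1 q.2 ^ m)) p = 0 := by
      have hκ : Differentiable ℝ (fun w : ℂ => ((m + 1 : ℂ) * cj 1 w ^ m)) :=
        ((cj 1).differentiable.fun_pow _).const_mul _
      exact D_comp_zero (κ := fun w : ℂ => ((m + 1 : ℂ) * cj 1 w ^ m)) q2_i1 hκ 1 p
    rw [a1, a2, D_mul (dpcj2 _ _ _) (hdψ p),
      D_mul (a := fun q : E => ((m + 1 : ℂ) * cj 1 q.2 ^ m) * cj 1 q.1) (d1.fun_mul (dcj1 _ _)) (hdψ p),
      D_mul d1 (dcj1 _ _), e0, D_pow_pos hc1, D1_cj1]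
    ring
  have hF1 : Wn (m + 1) (fun p => f1 (Ph m p)) := Wn_of_T hf1
  have hF2 : Wn (m + 1) (fun p => f2 (Ph m p)) := Wn_of_T hf2
  have t1 : IsTest P (fun p => cj 1 p.2 ^ (m + 1) * D i2 1 ψ p) := (hψ.D i2 1).mul (pcj2 1 _)
  have t2 : IsTest P (fun p => ((m + 1) * cj 1 p.2 ^ m * cj 1 p.1) * D i1 1 ψ p) :=
    (hψ.D i1 1).mul ((contDiff_const.mul (pcj2 1 m)).mul (ccj1 1))
  have e1 : ∫ p in T m, f1 p * D i2 1 φ p = (∫ p in P, f1 (Ph m p) * (cj 1 p.2 ^ (m + 1) * D i2 1 ψ p)) -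
      ∫ p in P, f1 (Ph m p) * (((m + 1) * cj 1 p.2 ^ m * cj 1 p.1) * D i1 1 ψ p) := by
    rw [int_T (aesm_mul hf1 (hφ.D i2 1)), ← integral_sub (hF1.int t1) (hF1.int t2)]
    congr 1
    funext p
    have := key2 p
    linear_combination f1 (Ph m p) * this
  have e2 : ∫ p in T m, f2 p * D i1 1 φ p = ∫ p in P, f2 (Ph m p) * D i1 1 ψ p := by
    rw [int_T (aesm_mul hf2 (hφ.D i1 1))]
    congr 1
    funext p
    have := key1 p
    linear_combination f2 (Ph m p) * this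
  have e3 : ∫ p in P, (cj 1 p.2 ^ (m + 1) * f1 (Ph m p)) * D i2 1 ψ p =
      ∫ p in P, f1 (Ph m p) * (cj 1 p.2 ^ (m + 1) * D i2 1 ψ p) := by
    congr 1; funext p; ring
  have e4 : ∫ p in P, (f2 (Ph m p) + ((m + 1) * cj 1 p.2 ^ m * cj 1 p.1) * f1 (Ph m p)) * D i1 1 ψ p =
      (∫ p in P, f2 (Ph m p) * D i1 1 ψ p) +
      ∫ p in P, f1 (Ph m p) * (((m + 1) * cj 1 p.2 ^ m * cj 1 p.1) * D i1 1 ψ p) := by
    rw [← integral_add (hF2.int (hψ.D i1 1)) (hF1.int t2)]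
    congr 1; funext p; ring
  have := h φ hφ
  rw [e1, e2] at this
  rw [e3, e4]
  linear_combination this

end Pool.Agent.KS6_3.HT
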