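import Mathlib
import Pool.Agent.KS6_3.HT.Transfer
import Pool.Agent.KS6_3.HT.HardyK
import Pool.Agent.KS6_3.HT.Split

set_option autoImplicit false
open MeasureTheory Metric Set Filter Topology Complex
open scoped ContDiff ENNReal ComplexConjugate

namespace Pool.Agent.KS6_3.HT

open Pool.Agent.H807R3 hiding T Ph Ps isOpen_T Ph_mem T_ne Ph_Ps Ps_Ph Ps_mem meas_Ph meas_Ps lintegral_T nu
  meas_dens mp_Ph nu_ac ac_nu mp_Ps WL_iff WL_of_T memLp_of_WL int_T smooth_Ph smoothAt_Ps test_Ph test_Ps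
  Ps_Ph_test fderiv_Ph chain1 chain2 star1 star2 fwd1 fwd2 bwd closed_P aesm_mul

variable {m : ℕ}

/-- the four weak Wirtinger derivatives on `T m`, all in `L²(T m)` -/
structure Wirt (m : ℕ) (f A A' C C' : E → ℂ) : Prop where
  mf : MemLp f 2 (volume.restrict (T m))
  mA : MemLp A 2 (volume.restrict (T m))
  mA' : MemLp A' 2 (volume.restrict (T m))
  mC : MemLp C 2 (volume.restrict (T m))
  mC' : MemLp C' 2 (volume.restrict (T m))
  wA : WD (T m) i1 1 f A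
  wA' : WD (T m) i1 (-1) f A'
  wC : WD (T m) i2 1 f C
  wC' : WD (T m) i2 (-1) f C'

theorem one_or : (1:ℂ) = 1 ∨ (1:ℂ) = -1 := Or.inl rfl
theorem neg_or : (-1:ℂ) = 1 ∨ (-1:ℂ) = -1 := Or.inr rfl

theorem norm_m1 (m : ℕ) : ‖(m + 1 : ℂ)‖ = m + 1 := by
  have : (m + 1 : ℂ) = ((m + 1 : ℝ) : ℂ) := by push_cast; rfl
  rw [this, Complex.norm_real, Real.norm_of_nonneg (by positivity)]

/-- multiplication by `(m+1) (cj c w)^m cj c' ζ` -/
theorem Wn.mulb {n : ℕ} {F : E → ℂ} (hF : Wn n F) {c c' : ℂ} (hc : c = 1 ∨ c = -1) (hc' : c' = 1 ∨ c' = -1)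
    (n' : ℕ) (hn : n ≤ n' + m) :
    Wn n' (fun p => ((m + 1) * cj c p.2 ^ m * cj c' p.1) * F p) := by
  apply hF.mul n' (m := fun p : E => ((m + 1) * cj c p.2 ^ m * cj c' p.1))
    ((((meas_cjp c m).const_mul _)).mul (meas_cj1 c')).aestronglyMeasurable (m + 1)
  intro p hp
  rw [norm_mul, norm_mul, norm_pow, norm_cj hc, norm_cj hc', norm_m1]
  have h1 : ‖p.2‖ ^ n' * ((m + 1) * ‖p.2‖ ^ m * ‖p.1‖) = (m + 1) * (‖p.2‖ ^ (n' + m) * ‖p.1‖) := by
    rw [pow_add]; ring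
  rw [h1]
  apply mul_le_mul_of_nonneg_left _ (by positivity)
  calc ‖p.2‖ ^ (n' + m) * ‖p.1‖ ≤ ‖p.2‖ ^ (n' + m) :=
        mul_le_of_le_one_right (by positivity) hp.1.le
    _ ≤ _ := pow_le_pow_of_le_one (norm_nonneg _) hp.2.2.le hn

/-- multiplication by `(cj c w)^k` -/
theorem Wn.mulp {n : ℕ} {F : E → ℂ} (hF : Wn n F) {c : ℂ} (hc : c = 1 ∨ c = -1) (k n' : ℕ) (hn : n ≤ n' + k) :
    Wn n' (fun p => cj c p.2 ^ k * F p) := by
  apply hF.mul n' (m := fun p : E => cj c p.2 ^ k) (meas_cjp c k).aestronglyMeasurable 1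
  intro p hp
  rw [norm_pow, norm_cj hc, one_mul, ← pow_add]
  exact pow_le_pow_of_le_one (norm_nonneg _) hp.2.2.le hn

theorem Wirt.hardy {f A A' C C' : E → ℂ} (h : Wirt m f A A' C C') : Wn m (fun p => f (Ph m p)) := by
  have w1 := fwd2 one_or h.mf h.mA h.mC h.wA h.wC
  have w2 := fwd2 neg_or h.mf h.mA' h.mC' h.wA' h.wC'
  have b : ∀ {c : ℂ} (_ : c = 1 ∨ c = -1) {A C : E → ℂ}, MemLp A 2 (volume.restrict (T m)) →
      MemLp C 2 (volume.restrict (T m)) →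
      Wn (m + 1) (fun p => C (Ph m p) + ((m + 1) * cj c p.2 ^ m * cj c p.1) * A (Ph m p)) := by
    intro c hc A C hA hC
    exact (Wn_of_T hC).add ((Wn_of_T hA).mulb hc hc (m + 1) (by omega))
  exact hardy_k (Wn_of_T h.mf) (b neg_or h.mA' h.mC') (b one_or h.mA h.mC) w2 w1

/-- the correction term: solving `∂̄` for a function of `w` alone -/
theorem correction {N : E → ℂ} (hN : MemLp N 2 (volume.restrict P)) (w1 : WD P i1 1 N (fun _ => 0))
    (w2 : WD P i1 (-1) N (fun _ => 0)) :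
    ∃ c Yc : E → ℂ, Wn (m + 1) c ∧ Wn (m + 1) Yc ∧ WD P i1 1 c (fun _ => 0) ∧
      WD P i1 (-1) c (fun _ => 0) ∧ WD P i2 1 c (fun p => (p.2 ^ m)⁻¹ * N p) ∧ WD P i2 (-1) c Yc := by
  obtain ⟨U, hU, rU⟩ := bdd_S2.rep mP hN
  obtain ⟨V, hV, rV⟩ := bdd_B2.rep mP hN
  have hz0 : MemLp (fun _ : E => (0:ℂ)) 2 (volume.restrict P) := MemLp.zero
  have wz : ∀ c : ℂ, WD P i1 c N (fun _ => 0) → WD P i1 c U (fun _ => 0) := by
    intro c hw φ hφ
    rw [← rU _ (hφ.D i1 c)]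
    have e : ∫ p in P, N p * S i2 (D i1 c φ) p = - ∫ p in P, (0:ℂ) * S i2 φ p := by
      rw [← D_S' hφ.cc]
      apply hw.ext1 hN hz0 hφ.cc.S2
      intro p hp
      obtain ⟨q, hq, hq1⟩ := tsupport_S2 hφ.cc hp
      rw [← hq1]; exact (hφ.2.2 hq).1
    rw [e]
    simp
  have u1 := wz 1 w1
  have u2 := wz (-1) w2
  have u3 : WD P i2 1 U (fun p => -N p) := by
    intro φ hφ
    rw [← rU _ (hφ.D i2 1)]
    have e1 : ∫ p in P, N p * S i2 (D i2 1 φ) p = ∫ p in P, N p * φ p := by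
      apply setIntegral_congr_fun mP
      intro p hp
      show N p * S i2 (D i2 1 φ) p = N p * φ p
      rw [S_D hφ.cc i2 q2 q2_i2 hφ.s2]
      have := hp.2.2; rw [q2_apply]; linarith
    rw [e1, ← integral_neg]
    congr 1
    funext p
    ring
  have u4 : WD P i2 (-1) U (fun p => -V p) := by
    intro φ hφ
    rw [← rU _ (hφ.D i2 (-1)), rV φ hφ, ← integral_neg]
    congr 1
    funext p
    ring
  set h : ℂ → ℂ := fun w => -(w ^ m)⁻¹ with hh
  set h' : ℂ → ℂ := fun w => (m * w ^ (m - 1)) / (w ^ m) ^ 2 with hh'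
  have hder : ∀ p ∈ P, HasDerivAt h (h' p.2) p.2 := by
    intro p hp
    have := ((hasDerivAt_pow m p.2).fun_inv (pow_ne_zero m (ne_of_P hp))).fun_neg
    refine this.congr_deriv ?_
    simp only [hh']
    rw [neg_div, neg_neg]
  have hsm : SmP (fun p => h p.2) := by
    intro p hp
    simp only [hh]
    exact ((contDiffAt_snd.pow m).inv (pow_ne_zero _ (ne_of_P hp))).neg
  have nU := Wn_zero.2 hU
  have nN := Wn_zero.2 hN.neg
  have nV := Wn_zero.2 hV.neg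
  have nz := Wn_zero.2 hz0
  have mh : Measurable (fun p : E => h p.2) := by
    simp only [hh]
    exact ((measurable_snd.pow_const m).inv).neg
  have mh' : Measurable (fun p : E => h' p.2) := by
    simp only [hh']
    fun_prop
  have bh : ∀ p ∈ P, ‖p.2‖ ^ (m + 1) * ‖h p.2‖ ≤ 1 * ‖p.2‖ ^ 0 := by
    intro p hp
    have := hp.2.1
    simp only [hh]
    rw [norm_neg, norm_inv, norm_pow, pow_succ, pow_zero, mul_one]
    have h3 : ‖p.2‖ ^ m * ‖p.2‖ * (‖p.2‖ ^ m)⁻¹ = ‖p.2‖ := by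
      field_simp
    rw [h3]
    exact hp.2.2.le
  have bh' : ∀ p ∈ P, ‖p.2‖ ^ (m + 1) * ‖h' p.2‖ ≤ m * ‖p.2‖ ^ 0 := by
    intro p hp
    have hp0 := hp.2.1
    simp only [hh']
    rw [norm_div, norm_mul, norm_pow, norm_pow, norm_pow, Complex.norm_natCast, pow_zero, mul_one]
    rcases m with _ | n
    · simp
    · simp only [Nat.add_sub_cancel]
      have h3 : ‖p.2‖ ^ (n + 1 + 1) * (((n + 1 : ℕ) : ℝ) * ‖p.2‖ ^ n / (‖p.2‖ ^ (n + 1)) ^ 2) =
          ((n + 1 : ℕ) : ℝ) := by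
        rw [pow_succ, pow_succ]
        field_simp
      rw [h3]
  have c1 : Wn (m + 1) (fun p => h p.2 * U p) := nU.mul (m + 1) mh.aestronglyMeasurable 1 bh
  have c2 : Wn (m + 1) (fun p => h p.2 * (-V p) + h' p.2 * U p) :=
    (nV.mul (m + 1) mh.aestronglyMeasurable 1 bh).add (nU.mul (m + 1) mh'.aestronglyMeasurable m bh')
  refine ⟨fun p => h p.2 * U p, _, c1, c2, ?_, ?_, ?_, ?_⟩
  · have := u1.smul nU nz hsm (m' := fun _ => 0) (fun p hp => D1_hol (hder p hp) _)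
    exact this.congr (ae_of_all _ fun _ => rfl) (ae_of_all _ fun p => by ring)
  · have := u2.smul nU nz hsm (m' := fun _ => 0) (fun p hp => D1_hol (hder p hp) _)
    exact this.congr (ae_of_all _ fun _ => rfl) (ae_of_all _ fun p => by ring)
  · have := u3.smul nU nN hsm (m' := fun _ => 0) (fun p hp => by rw [D2_hol (hder p hp)]; ring)
    refine this.congr (ae_of_all _ fun _ => rfl) (ae_of_all _ fun p => ?_)
    simp only [hh]
    ring
  · exact u4.smul nU nV hsm (m' := fun p => h' p.2) (fun p hp => by rw [D2_hol (hder p hp)]; ring)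

theorem main_T {f1 A1 A1' C1 C1' f2 A2 A2' C2 C2' : E → ℂ}
    (h1 : Wirt m f1 A1 A1' C1 C1') (h2 : Wirt m f2 A2 A2' C2 C2')
    (hcl : ∀ φ, IsTest (T m) φ → ∫ p in T m, f1 p * D i2 1 φ p = ∫ p in T m, f2 p * D i1 1 φ p) :
    ∃ u X Y : E → ℂ, MemLp u 2 (volume.restrict (T m)) ∧ MemLp X 2 (volume.restrict (T m)) ∧
      MemLp Y 2 (volume.restrict (T m)) ∧ WD (T m) i1 1 u f1 ∧ WD (T m) i2 1 u f2 ∧
      WD (T m) i1 (-1) u X ∧ WD (T m) i2 (-1) u Y := by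
  have hz0 : MemLp (fun _ : E => (0:ℂ)) 2 (volume.restrict P) := MemLp.zero
  have hz : Wn 0 (fun _ : E => (0:ℂ)) := Wn_zero.2 hz0
  have n1 := h1.hardy
  have n2 := h2.hardy
  have cl := closed_P h1.mf h2.mf hcl
  -- weak derivatives on `P`
  have a1 := fwd1 one_or h1.mf h1.mA h1.wA
  have a1' := fwd1 neg_or h1.mf h1.mA' h1.wA'
  have a2 := fwd1 one_or h2.mf h2.mA h2.wA
  have a2' := fwd1 neg_or h2.mf h2.mA' h2.wA'
  have c1' := fwd2 neg_or h1.mf h1.mA' h1.mC' h1.wA' h1.wC'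
  have k1 : Wn 0 (fun p => cj 1 p.2 ^ (m + 1) * A1 (Ph m p)) := (Wn_of_T h1.mA).mulp one_or _ 0 (by omega)
  have k1' : Wn 0 (fun p => cj (-1) p.2 ^ (m + 1) * A1' (Ph m p)) := (Wn_of_T h1.mA').mulp neg_or _ 0 (by omega)
  have k2 : Wn 0 (fun p => cj 1 p.2 ^ (m + 1) * A2 (Ph m p)) := (Wn_of_T h2.mA).mulp one_or _ 0 (by omega)
  have k2' : Wn 0 (fun p => cj (-1) p.2 ^ (m + 1) * A2' (Ph m p)) := (Wn_of_T h2.mA').mulp neg_or _ 0 (by omega)
  have kc : Wn (m + 1) (fun p => C1' (Ph m p) + ((m + 1) * cj (-1) p.2 ^ m * cj (-1) p.1) * A1' (Ph m p)) :=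
    (Wn_of_T h1.mC').add ((Wn_of_T h1.mA').mulb neg_or neg_or (m + 1) (by omega))
  set g1 : E → ℂ := fun p => f1 (Ph m p) with hg1
  set g2 : E → ℂ := fun p => f2 (Ph m p) with hg2
  set K1 : E → ℂ := fun p => cj 1 p.2 ^ (m + 1) * A1 (Ph m p) with hK1
  set K1' : E → ℂ := fun p => cj (-1) p.2 ^ (m + 1) * A1' (Ph m p) with hK1'
  set K2 : E → ℂ := fun p => cj 1 p.2 ^ (m + 1) * A2 (Ph m p) with hK2
  set K2' : E → ℂ := fun p => cj (-1) p.2 ^ (m + 1) * A2' (Ph m p) with hK2'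
  set L1 : E → ℂ := fun p => C1' (Ph m p) + ((m + 1) * cj (-1) p.2 ^ m * cj (-1) p.1) * A1' (Ph m p) with hL1
  -- splitting
  obtain ⟨N, hN, wN1, wN2, hdiff⟩ := split n2 (Wn_zero.1 k2) (Wn_zero.1 k2') a2 a2'
  obtain ⟨c, Yc, hc, hYc, wc1, wc2, wc3, wc4⟩ := correction (m := m) hN wN1 wN2
  set M : E → ℂ := fun p => (p.2 ^ m)⁻¹ * N p with hM
  have hMn : Wn m M := by
    apply (Wn_zero.2 hN).mul m (m := fun p : E => (p.2 ^ m)⁻¹)
      (measurable_snd.pow_const m).inv.aestronglyMeasurable 1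
    intro p hp
    rw [norm_inv, norm_pow, mul_inv_cancel₀ (pow_ne_zero _ hp.2.1.ne')]
    simp
  have hinv : SmP (fun p : E => (p.2 ^ m)⁻¹) := by
    intro p hp
    exact (contDiffAt_snd.pow m).inv (pow_ne_zero _ (ne_of_P hp))
  have hinvD : ∀ (c : ℂ), ∀ p ∈ P, D i1 c (fun p : E => (p.2 ^ m)⁻¹) p = (fun _ : E => (0:ℂ)) p := by
    intro c p hp
    have := (hasDerivAt_pow m p.2).fun_inv (pow_ne_zero m (ne_of_P hp))
    exact D1_hol (h := fun w => (w ^ m)⁻¹) this c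
  have wM1 : WD P i1 1 M (fun _ => 0) := by
    have := wN1.smul (Wn_zero.2 hN) hz hinv (hinvD 1)
    exact this.congr (ae_of_all _ fun _ => rfl) (ae_of_all _ fun p => by ring)
  have wM2 : WD P i1 (-1) M (fun _ => 0) := by
    have := wN2.smul (Wn_zero.2 hN) hz hinv (hinvD (-1))
    exact this.congr (ae_of_all _ fun _ => rfl) (ae_of_all _ fun p => by ring)
  -- the multiplier
  set b : E → ℂ := fun p => (m + 1 : ℂ) * cj 1 p.2 ^ m * cj 1 p.1 with hb
  have bsm : ContDiff ℝ ∞ b := (contDiff_const.mul (pcj2 1 m)).mul (ccj1 1)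
  have bD : ∀ c' : ℂ, ∀ p, D i1 c' b p = ((m + 1 : ℂ) * cj 1 p.2 ^ m) * ((1 + c') / 2) := by
    intro c' p
    have d1 : DifferentiableAt ℝ (fun q : E => ((m + 1 : ℂ) * cj 1 q.2 ^ m)) p := (dpcj2 _ _ _).const_mul _
    have e0 : D i1 c' (fun q : E => ((m + 1 : ℂ) * cj 1 q.2 ^ m)) p = 0 := by
      have hκ : Differentiable ℝ (fun w : ℂ => ((m + 1 : ℂ) * cj 1 w ^ m)) :=
        ((cj 1).differentiable.fun_pow _).const_mul _
      exact D_comp_zero (κ := fun w : ℂ => ((m + 1 : ℂ) * cj 1 w ^ m)) q2_i1 hκ c' p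
    simp only [hb]
    rw [D_mul d1 (dcj1 _ _), e0, D1_cj1]
    ring
  have nb1 : Wn 0 (fun p => b p * g1 p) := n1.mulb one_or one_or 0 (by omega)
  -- the data on `P`
  set F1 : E → ℂ := fun p => cj 1 p.2 ^ (m + 1) * g1 p with hF1
  set F2 : E → ℂ := fun p => (g2 p - M p) + b p * g1 p with hF2
  set K : E → ℂ := fun p => K2 p + (b p * K1 p + ((m + 1 : ℂ) * cj 1 p.2 ^ m) * g1 p) with hK
  set X : E → ℂ := fun p => K2' p + b p * K1' p with hX
  set Y : E → ℂ := fun p => cj 1 p.2 ^ (m + 1) * L1 p with hY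
  have nF1 : Wn 0 F1 := n1.mulp one_or _ 0 (by omega)
  have nF2 : Wn 0 F2 := (Wn_zero.2 hdiff).add nb1
  have ng1' : Wn 0 (fun p => ((m + 1 : ℂ) * cj 1 p.2 ^ m) * g1 p) := by
    apply n1.mul 0 (m := fun p : E => (m + 1 : ℂ) * cj 1 p.2 ^ m)
      ((meas_cjp 1 m).const_mul _).aestronglyMeasurable (m + 1)
    intro p hp
    rw [norm_mul, norm_pow, norm_cj one_or, norm_m1, pow_zero, one_mul]
  have nbK1 : Wn 0 (fun p => b p * K1 p) := k1.mulb one_or one_or 0 (by omega)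
  have nbK1' : Wn 0 (fun p => b p * K1' p) := k1'.mulb one_or one_or 0 (by omega)
  have nK : Wn 0 K := k2.add (nbK1.add ng1')
  have nX : Wn 0 X := k2'.add nbK1'
  have nY : Wn 0 Y := kc.mulp one_or _ 0 (by omega)
  have wK : WD P i1 1 F2 K := by
    have e1 := a2.lin 1 (-1) wM1 n2 hMn k2 hz
    have e2 : WD P i1 1 (fun p => b p * g1 p) (fun p => b p * K1 p + ((m + 1 : ℂ) * cj 1 p.2 ^ m) * g1 p) := by
      have := a1.smul n1 k1 (SmP.of bsm) (m' := fun p => (m + 1 : ℂ) * cj 1 p.2 ^ m)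
        (fun p _ => by rw [bD]; ring)
      exact this
    have n3 : Wn m (fun p => 1 * g2 p + (-1) * M p) := (n2.sub hMn).congr (ae_of_all _ fun p => by ring)
    have n4 : Wn 0 (fun p => 1 * K2 p + (-1) * (0:ℂ)) := k2.congr (ae_of_all _ fun p => by ring)
    have e3 := e1.lin 1 1 e2 n3 nb1 n4 (nbK1.add ng1')
    refine e3.congr (ae_of_all _ fun p => ?_) (ae_of_all _ fun p => ?_)
    · simp only [hF2]; ring
    · simp only [hK]; ring
  have wX : WD P i1 (-1) F2 X := by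
    have e1 := a2'.lin 1 (-1) wM2 n2 hMn k2' hz
    have e2 : WD P i1 (-1) (fun p => b p * g1 p) (fun p => b p * K1' p) := by
      have := a1'.smul n1 k1' (SmP.of bsm) (m' := fun _ => 0)
        (fun p _ => by rw [bD]; ring)
      exact this.congr (ae_of_all _ fun _ => rfl) (ae_of_all _ fun p => by ring)
    have n3 : Wn m (fun p => 1 * g2 p + (-1) * M p) := (n2.sub hMn).congr (ae_of_all _ fun p => by ring)
    have n4 : Wn 0 (fun p => 1 * K2' p + (-1) * (0:ℂ)) := k2'.congr (ae_of_all _ fun p => by ring)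
    have e3 := e1.lin 1 1 e2 n3 nb1 n4 nbK1'
    refine e3.congr (ae_of_all _ fun p => ?_) (ae_of_all _ fun p => ?_)
    · simp only [hF2]; ring
    · simp only [hX]; ring
  have wY : WD P i2 (-1) F1 Y := by
    have := c1'.smul n1 kc (SmP.of (pcj2 1 (m + 1))) (m' := fun _ => 0) (fun p _ => by
      have h5 := D_pow_neg neg_or m p
      rw [neg_neg] at h5
      exact h5)
    exact this.congr (ae_of_all _ fun _ => rfl) (ae_of_all _ fun p => by simp only [hY]; ring)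
  have wK2 : WD P i2 1 F1 K := by
    intro ψ hψ
    rw [cl ψ hψ]
    have e1 : ∫ p in P, (f2 (Ph m p) + ((m + 1) * cj 1 p.2 ^ m * cj 1 p.1) * f1 (Ph m p)) * D i1 1 ψ p =
        (∫ p in P, F2 p * D i1 1 ψ p) + ∫ p in P, M p * D i1 1 ψ p := by
      rw [← integral_add (nF2.int (hψ.D i1 1)) (hMn.int (hψ.D i1 1))]
      congr 1
      funext p
      simp only [hF2, hg1, hg2, hb]
      ring
    rw [e1, wK ψ hψ, wM1 ψ hψ]
    simp
  obtain ⟨U, X', Y', mU, mX', mY', u1, u2, u3, u4⟩ := solveP (Wn_zero.1 nF1) (Wn_zero.1 nF2)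
    (Wn_zero.1 nK) (Wn_zero.1 nX) (Wn_zero.1 nY) wK2 wK wX wY
  -- assembling
  have nU := Wn_zero.2 mU
  have nX' := Wn_zero.2 mX'
  have nY' := Wn_zero.2 mY'
  set W : E → ℂ := fun p => U p + c p with hW
  have nW : Wn (m + 1) W := (Wn.of_mem mU).add hc
  have nS : Wn (m + 1) (fun p => F2 p + M p) := (nF2.mono (Nat.zero_le _)).add (hMn.mono (Nat.le_succ _))
  have nYt : Wn (m + 1) (fun p => Y' p + Yc p) := (Wn.of_mem mY').add hYc
  have w1 : WD P i1 1 W F1 := by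
    have := u1.lin 1 1 wc1 nU hc nF1 hz
    refine this.congr (ae_of_all _ fun p => ?_) (ae_of_all _ fun p => ?_)
    · simp only [hW]; ring
    · ring
  have w2 : WD P i2 1 W (fun p => F2 p + M p) := by
    have := u2.lin 1 1 wc3 nU hc nF2 hMn
    refine this.congr (ae_of_all _ fun p => ?_) (ae_of_all _ fun p => ?_)
    · simp only [hW]; ring
    · simp only [hM]; ring
  have w3 : WD P i1 (-1) W X' := by
    have := u3.lin 1 1 wc2 nU hc nX' hz
    refine this.congr (ae_of_all _ fun p => ?_) (ae_of_all _ fun p => ?_)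
    · simp only [hW]; ring
    · ring
  have w4 : WD P i2 (-1) W (fun p => Y' p + Yc p) := by
    have := u4.lin 1 1 wc4 nU hc nY' hYc
    refine this.congr (ae_of_all _ fun p => ?_) (ae_of_all _ fun p => ?_)
    · simp only [hW]; ring
    · ring
  obtain ⟨bp1, bp2, bp3, bp4⟩ := bwd one_or nW (Wn_zero.1 nF1) nS w1 w2
  obtain ⟨bm1, bm2, bm3, bm4⟩ := bwd neg_or nW mX' nYt w3 w4
  have hTm : MeasurableSet (T m) := isOpen_T.measurableSet
  refine ⟨fun p => W (Ps m p), _, _, memLp_of_Wn nW, memLp_of_Wn bm1, memLp_of_Wn bm2, ?_, ?_, bm3, bm4⟩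
  · intro φ hφ
    rw [bp3 φ hφ]
    congr 1
    apply setIntegral_congr_fun hTm
    intro p hp
    have hp0 := T_ne hp
    have h5 : Ph m (Ps m p) = p := Ph_Ps hp0
    have h6 : cj 1 (Ps m p).2 ^ (m + 1) ≠ 0 := pow_ne_zero _ (cj_ne (by norm_num) hp0)
    show ((cj 1 (Ps m p).2 ^ (m + 1))⁻¹ * F1 (Ps m p)) * φ p = f1 p * φ p
    simp only [hF1, hg1]
    rw [h5]
    field_simp
  · intro φ hφ
    rw [bp4 φ hφ]
    congr 1
    apply setIntegral_congr_fun hTm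
    intro p hp
    have hp0 := T_ne hp
    have h5 : Ph m (Ps m p) = p := Ph_Ps hp0
    have h6 : cj 1 (Ps m p).2 ≠ 0 := cj_ne (by norm_num) hp0
    show ((F2 (Ps m p) + M (Ps m p)) - ((m + 1) * cj 1 (Ps m p).1 * (cj 1 (Ps m p).2)⁻¹) * F1 (Ps m p)) * φ p =
      f2 p * φ p
    simp only [hF1, hF2, hg1, hg2, hb]
    rw [h5]
    field_simp
    ring

end Pool.Agent.KS6_3.HT
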